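import Pool.Agent.R788.MF.Fin

/-!
# Bouquets of circles
-/

set_option autoImplicit false

open Topology Complex

namespace Pool.Agent.R788.MF

section General

variable {X : Type} [TopologicalSpace X] {B : Set X} {Y Z : Type} [TopologicalSpace Y]
  [TopologicalSpace Z]

theorem HomotopicRel.postcomp {V : Set X} {f₀ f₁ : C(X, Y)} (h : f₀.HomotopicRel f₁ V)
    (g : C(Y, Z)) : (g.comp f₀).HomotopicRel (g.comp f₁) V := by
  obtain ⟨F⟩ := h
  refine ⟨⟨⟨⟨fun p => g (F p), g.continuous.comp F.continuous⟩, fun x => ?_, fun x => ?_⟩,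
    fun t x hx => ?_⟩⟩
  · exact congrArg g (F.apply_zero x)
  · exact congrArg g (F.apply_one x)
  · exact congrArg g (F.eq_fst t hx)

theorem isotId_le_stab (f : C(X, Y)) (V : Set X) (hV : V ⊆ B) : isotId X B ≤ stab f V hV := by
  intro h hh
  obtain ⟨G, hG, hG0, hG1⟩ := inv_mem hh
  change (f.comp (cmap h⁻¹)).HomotopicRel f V
  refine ContinuousMap.HomotopicRel.symm ?_
  refine ⟨⟨⟨⟨fun p => f ((G p.1).1 p.2), f.continuous.comp hG⟩, fun x => ?_, fun x => ?_⟩,
    fun t x hx => ?_⟩⟩
  · change f ((G 0).1 x) = f x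
    rw [hG0]
    rfl
  · change f ((G 1).1 x) = f ((h⁻¹ : homeoRel X B).1 x)
    rw [hG1]
  · change f ((G t).1 x) = f x
    rw [(G t).2 x (hV hx)]

/-- The group `MCG(f)` is the stabiliser of the class of `f`. -/
theorem mk_mem_MCGf (f : C(X, Y)) (V : Set X) (hV : V ⊆ B) (ρ : homeoRel X B) :
    (QuotientGroup.mk ρ : MCG X B) ∈ MCGf f V hV ↔ (f.comp (cmap ρ⁻¹)).HomotopicRel f V := by
  constructor
  · rintro ⟨σ, hσ, h⟩
    have h1 : σ⁻¹ * ρ ∈ isotId X B := QuotientGroup.eq.1 h
    have h2 : σ * (σ⁻¹ * ρ) ∈ stab f V hV := mul_mem hσ (isotId_le_stab f V hV h1)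
    rw [mul_inv_cancel_left] at h2
    exact h2
  · exact fun h => ⟨ρ, h, rfl⟩

theorem stab_comp (f : C(X, Y)) (V : Set X) (hV : V ⊆ B) (i : C(Y, Z)) (p : C(Z, Y))
    (hp : ∀ y, p (i y) = y) : stab (i.comp f) V hV = stab f V hV := by
  ext ρ
  constructor
  · intro h
    have h1 := HomotopicRel.postcomp (f₀ := (i.comp f).comp (cmap ρ⁻¹)) (f₁ := i.comp f) h p
    have e1 : p.comp ((i.comp f).comp (cmap ρ⁻¹)) = f.comp (cmap ρ⁻¹) := by
      ext x
      exact hp _
    have e2 : p.comp (i.comp f) = f := by
      ext x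
      exact hp _
    rw [e1, e2] at h1
    exact h1
  · intro h
    exact HomotopicRel.postcomp (f₀ := f.comp (cmap ρ⁻¹)) (f₁ := f) h i

end General

/-- The bouquet of `r` circles: the points of the product of `r` circles with at most one
coordinate different from the base point `1`. -/
def Bouquet (r : ℕ) : Type := {x : Fin r → Circle // ∀ i j, x i ≠ 1 → x j ≠ 1 → i = j}

noncomputable instance (r : ℕ) : TopologicalSpace (Bouquet r) := instTopologicalSpaceSubtype

theorem continuous_update_one (r : ℕ) :
    Continuous fun z : Circle => Function.update (1 : Fin (r + 1) → Circle) 0 z :=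
  continuous_const.update 0 continuous_id

theorem incl_aux (r : ℕ) (z : Circle) : ∀ i j : Fin (r + 1),
    Function.update (1 : Fin (r + 1) → Circle) 0 z i ≠ 1 →
      Function.update (1 : Fin (r + 1) → Circle) 0 z j ≠ 1 → i = j := by
  have h : ∀ i : Fin (r + 1), Function.update (1 : Fin (r + 1) → Circle) 0 z i ≠ 1 → i = 0 := by
    intro i hi
    by_contra hc
    exact hi (by rw [Function.update_of_ne hc]; rfl)
  intro i j hi hj
  rw [h i hi, h j hj]

/-- The inclusion of the first circle. -/
noncomputable def inclFun (r : ℕ) (z : Circle) : Bouquet (r + 1) :=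
  ⟨Function.update (1 : Fin (r + 1) → Circle) 0 z, incl_aux r z⟩

theorem continuous_inclFun (r : ℕ) : Continuous (inclFun r) :=
  (continuous_update_one r).subtype_mk _

/-- The inclusion of the first circle as a continuous map. -/
noncomputable def incl (r : ℕ) : C(Circle, Bouquet (r + 1)) := ⟨inclFun r, continuous_inclFun r⟩

/-- The retraction to the first circle. -/
noncomputable def retr (r : ℕ) : C(Bouquet (r + 1), Circle) where
  toFun x := x.1 0
  continuous_toFun := (continuous_apply 0).comp continuous_subtype_val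

theorem retr_incl (r : ℕ) (z : Circle) : retr r (incl r z) = z := by
  change Function.update (1 : Fin (r + 1) → Circle) 0 z 0 = z
  rw [Function.update_self]

/-- The map from the surface to the bouquet: the angle map, followed by the inclusion of the first
circle. -/
noncomputable def angleB (r : ℕ) : C(Sig, Bouquet (r + 1)) := (incl r).comp angle

theorem MCGf_angleB (r : ℕ) :
    MCGf (angleB r) marks marks_subset = MCGf angle marks marks_subset := by
  rw [MCGf, MCGf, angleB, stab_comp angle marks marks_subset (incl r) (retr r) (retr_incl r)]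

theorem isCompact_Sig : IsCompact Sig := by
  refine Metric.isCompact_of_isClosed_isBounded isClosed_Sig ?_
  refine (Metric.isBounded_closedBall (x := (0 : ℂ)) (r := 100)).subset ?_
  intro w hw
  rw [mem_closedBall_zero_iff]
  exact hw.2.1

end Pool.Agent.R788.MF
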