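import Mathlib

/-!
# Mapping class groups and stabilisers of maps: definitions
-/

set_option autoImplicit false

open Topology

namespace Pool.Agent.R788.MF

section General

variable (X : Type) [TopologicalSpace X] (B : Set X)

/-- The group of the homeomorphisms of `X` fixing every point of `B`. -/
def homeoRel : Subgroup (X ≃ₜ X) where
  carrier := {h | ∀ x ∈ B, h x = x}
  mul_mem' := by
    intro g h hg hh x hx
    change g (h x) = x
    rw [hh x hx, hg x hx]
  one_mem' := fun x _ => rfl
  inv_mem' := by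
    intro g hg x hx
    change g.symm x = x
    rw [Homeomorph.symm_apply_eq, hg x hx]

variable {X B}

/-- `h₀` and `h₁` are isotopic through homeomorphisms fixing every point of `B`. -/
def Isotopic (h₀ h₁ : homeoRel X B) : Prop :=
  ∃ h : unitInterval → homeoRel X B,
    Continuous (fun p : unitInterval × X => (h p.1).1 p.2) ∧ h 0 = h₀ ∧ h 1 = h₁

variable (X B)

/-- The homeomorphisms isotopic to the identity. -/
def isotId : Subgroup (homeoRel X B) where
  carrier := {h | Isotopic 1 h}
  mul_mem' := by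
    rintro g h ⟨G, hG, hG0, hG1⟩ ⟨H, hH, hH0, hH1⟩
    refine ⟨fun t => G t * H t, ?_, by simp only [hG0, hH0, one_mul], by simp only [hG1, hH1]⟩
    exact hG.comp (continuous_fst.prodMk hH)
  one_mem' := ⟨fun _ => 1, continuous_snd, rfl, rfl⟩
  inv_mem' := by
    rintro g ⟨G, hG, hG0, hG1⟩
    refine ⟨fun t => G (unitInterval.symm t) * g⁻¹, ?_, ?_, ?_⟩
    · have h1 : Continuous fun x : X => (g⁻¹ : homeoRel X B).1 x := (g⁻¹ : homeoRel X B).1.continuous
      exact hG.comp ((unitInterval.continuous_symm.comp continuous_fst).prodMk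
        (h1.comp continuous_snd))
    · simp only [unitInterval.symm_zero, hG1, mul_inv_cancel]
    · simp only [unitInterval.symm_one, hG0, one_mul]

theorem isotId_normal : (isotId X B).Normal := by
  constructor
  rintro g ⟨G, hG, hG0, hG1⟩ k
  refine ⟨fun t => k * G t * k⁻¹, ?_, ?_, ?_⟩
  · have h1 : Continuous fun x : X => (k⁻¹ : homeoRel X B).1 x := (k⁻¹ : homeoRel X B).1.continuous
    have h2 : Continuous fun x : X => k.1 x := k.1.continuous
    exact h2.comp (hG.comp (continuous_fst.prodMk (h1.comp continuous_snd)))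
  · simp only [hG0, mul_one, mul_inv_cancel]
  · simp only [hG1]

instance instNormal : (isotId X B).Normal := isotId_normal X B

/-- The mapping class group: homeomorphisms of `X` fixing `B` pointwise, modulo those isotopic to
the identity. -/
abbrev MCG : Type := homeoRel X B ⧸ isotId X B

variable {X B}

/-- A homeomorphism as a continuous map. -/
def cmap (h : homeoRel X B) : C(X, X) := ⟨h.1, h.1.continuous⟩

theorem HomotopicRel.precomp {Y : Type} [TopologicalSpace Y] {V : Set X} {f₀ f₁ : C(X, Y)}
    (h : f₀.HomotopicRel f₁ V) (g : C(X, X)) (hg : ∀ x ∈ V, g x = x) :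
    (f₀.comp g).HomotopicRel (f₁.comp g) V := by
  obtain ⟨F⟩ := h
  refine ⟨⟨⟨⟨fun p => F (p.1, g p.2), ?_⟩, fun x => ?_, fun x => ?_⟩, fun t x hx => ?_⟩⟩
  · exact F.continuous.comp (continuous_fst.prodMk (g.continuous.comp continuous_snd))
  · exact F.apply_zero (g x)
  · exact F.apply_one (g x)
  · change F (t, g x) = f₀ (g x)
    rw [hg x hx]
    exact F.eq_fst t hx

/-- The homeomorphisms `ρ` with `f ∘ ρ⁻¹` homotopic to `f` relative to `V`. -/
def stab {Y : Type} [TopologicalSpace Y] (f : C(X, Y)) (V : Set X) (hV : V ⊆ B) :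
    Subgroup (homeoRel X B) where
  carrier := {ρ | (f.comp (cmap ρ⁻¹)).HomotopicRel f V}
  mul_mem' := by
    intro ρ σ hρ hσ
    have h1 := HomotopicRel.precomp hσ (cmap ρ⁻¹) fun x hx => (ρ⁻¹ : homeoRel X B).2 x (hV hx)
    have h2 : (f.comp (cmap (ρ * σ)⁻¹)) = (f.comp (cmap σ⁻¹)).comp (cmap ρ⁻¹) := by
      ext x
      rfl
    change (f.comp (cmap (ρ * σ)⁻¹)).HomotopicRel f V
    rw [h2]
    exact h1.trans hρ
  one_mem' := by
    have h2 : (f.comp (cmap (1 : homeoRel X B)⁻¹)) = f := by
      ext x
      rfl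
    change (f.comp (cmap (1 : homeoRel X B)⁻¹)).HomotopicRel f V
    rw [h2]
    exact ContinuousMap.HomotopicRel.refl f
  inv_mem' := by
    intro ρ hρ
    have h1 := HomotopicRel.precomp hρ (cmap ρ) fun x hx => ρ.2 x (hV hx)
    have h2 : (f.comp (cmap ρ⁻¹)).comp (cmap ρ) = f := by
      ext x
      change f (ρ.1.symm (ρ.1 x)) = f x
      rw [Homeomorph.symm_apply_apply]
    have h3 : (f.comp (cmap ρ⁻¹⁻¹)) = f.comp (cmap ρ) := by
      rw [inv_inv]
    change (f.comp (cmap ρ⁻¹⁻¹)).HomotopicRel f V
    rw [h3]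
    rw [h2] at h1
    exact h1.symm

/-- The group `MCG(f)`: the stabiliser in the mapping class group of the homotopy class of `f`
relative to `V`, for the action `[ρ]·[f] = [f ∘ ρ⁻¹]`. -/
def MCGf {Y : Type} [TopologicalSpace Y] (f : C(X, Y)) (V : Set X) (hV : V ⊆ B) :
    Subgroup (MCG X B) := (stab f V hV).map (QuotientGroup.mk' (isotId X B))

end General

/-- A group is of finite homological type if its virtual cohomological dimension is finite (some
subgroup of finite index has finite cohomological dimension) and if all homology groups with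
coefficients in a module that is finitely generated as an abelian group are finitely generated. -/
def HasFiniteHomologicalType (G : Type) [Group G] : Prop :=
  (∃ H : Subgroup G, H.FiniteIndex ∧ ∃ n : ℕ, ∀ (A : Rep ℤ H) (i : ℕ), n < i →
    Subsingleton (groupCohomology A i)) ∧
  ∀ A : Rep ℤ G, Module.Finite ℤ A → ∀ i : ℕ, Module.Finite ℤ (groupHomology A i)

/-- The first integral homology group is finitely generated. -/
def FirstHomologyFG (G : Type) [Group G] : Prop :=
  Module.Finite ℤ (groupHomology (Rep.trivial ℤ G ℤ) 1)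

/-- `H` is the stabiliser of the homotopy class of `f` relative to `V`, for the action
`[ρ]·[f] = [f ∘ ρ⁻¹]` of the mapping class group. -/
def IsStabilizerOfClass {X Y : Type} [TopologicalSpace X] [TopologicalSpace Y] {B : Set X}
    (f : C(X, Y)) (V : Set X) (H : Subgroup (MCG X B)) : Prop :=
  ∀ ρ : homeoRel X B, (ρ : MCG X B) ∈ H ↔ (f.comp (cmap ρ⁻¹)).HomotopicRel f V

/-! ### The surface -/

/-- The surface: the closed annulus `1/100 ≤ |w| ≤ 100` without the open discs of radius `1/10`
about `3` and `1/3`. It is a sphere with four holes. -/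
def Sig : Set ℂ := {w | 1 / 100 ≤ ‖w‖ ∧ ‖w‖ ≤ 100 ∧ 1 / 10 ≤ ‖w - 3‖ ∧ 1 / 10 ≤ ‖w - 1 / 3‖}

/-- The boundary of the surface: its points in the union of the four boundary circles. -/
def bdry : Set Sig := {w | ‖(w : ℂ)‖ = 1 / 100 ∨ ‖(w : ℂ)‖ = 100 ∨ ‖(w : ℂ) - 3‖ = 1 / 10 ∨
  ‖(w : ℂ) - 1 / 3‖ = 1 / 10}

/-- The marked points, one on each boundary circle: `1/100`, `100`, `3 - 1/10`, `1/3 + 1/10`. -/
def marks : Set Sig := {w | (w : ℂ) = 1 / 100 ∨ (w : ℂ) = 100 ∨ (w : ℂ) = 3 - 1 / 10 ∨
  (w : ℂ) = 1 / 3 + 1 / 10}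

theorem Sig_ne_zero (w : Sig) : (w : ℂ) ≠ 0 := by
  intro h
  have := w.2.1
  rw [h, norm_zero] at this
  norm_num at this

theorem angle_aux (w : Sig) : (w : ℂ) / ‖(w : ℂ)‖ ∈ Submonoid.unitSphere ℂ := by
  refine mem_sphere_zero_iff_norm.2 ?_
  rw [norm_div, Complex.norm_real, norm_norm, div_self (norm_ne_zero_iff.2 (Sig_ne_zero w))]

/-- The map `w ↦ w / |w|` from the surface to the circle. -/
noncomputable def angleFun (w : Sig) : Circle := ⟨(w : ℂ) / ‖(w : ℂ)‖, angle_aux w⟩

theorem continuous_angleFun : Continuous angleFun := by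
  apply Continuous.subtype_mk
  apply Continuous.div continuous_subtype_val
  · exact Complex.continuous_ofReal.comp continuous_subtype_val.norm
  · intro w
    exact_mod_cast norm_ne_zero_iff.2 (Sig_ne_zero w)

/-- The map `w ↦ w / |w|` as a continuous map. -/
noncomputable def angle : C(Sig, Circle) := ⟨angleFun, continuous_angleFun⟩

theorem marks_subset : marks ⊆ bdry := by
  rintro w (h | h | h | h)
  · left
    rw [h]
    norm_num
  · right; left
    rw [h]
    norm_num
  · right; right; left
    rw [h]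
    norm_num
  · right; right; right
    rw [h]
    norm_num

end Pool.Agent.R788.MF
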