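import Pool.Agent.R788.MF.Inv

/-!
# Homeomorphisms of the surface from equivariant homeomorphisms of the plane
-/

set_option autoImplicit false

open Topology Complex

namespace Pool.Agent.R788.MF

theorem log_exp_eq (z : ℂ) : ∃ k : ℤ, log (exp z) = z + k * per :=
  exp_eq_iff.1 (exp_log (exp_ne_zero z))

theorem continuous_log_comp {X Y : Type} [TopologicalSpace X] [TopologicalSpace Y] {G : ℂ → Y}
    (hG : Continuous G) (hper : ∀ (z : ℂ) (k : ℤ), G (z + k * per) = G z) {f : X → ℂ}
    (hf : Continuous f) (hf0 : ∀ x, f x ≠ 0) : Continuous fun x => G (log (f x)) := by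
  have h1 : IsQuotientMap (fun z : ℂ => (⟨exp z, exp_ne_zero z⟩ : {z : ℂ // z ≠ 0})) :=
    isCoveringMap_exp.isQuotientMap (fun w => ⟨log w, Subtype.ext (exp_log w.2)⟩)
  have h2 : Continuous fun w : {z : ℂ // z ≠ 0} => G (log w) := by
    rw [h1.continuous_iff]
    have : ((fun w : {z : ℂ // z ≠ 0} => G (log w)) ∘
        fun z : ℂ => (⟨exp z, exp_ne_zero z⟩ : {z : ℂ // z ≠ 0})) = G := by
      funext z
      change G (log (exp z)) = G z
      obtain ⟨k, hk⟩ := log_exp_eq z
      rw [hk, hper]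
    rw [this]
    exact hG
  exact h2.comp (hf.subtype_mk hf0)

theorem mem_stab {ρ : homeoRel Sig bdry} {F : ℂ → ℂ} (hF : IsLift ρ F)
    (hfix : ∀ z, exp z ∈ Cset → F z = z) : ρ ∈ stab angle marks marks_subset := by
  obtain ⟨K, hK⟩ := exists_lift ρ⁻¹
  have hKF : ∀ z, K (F z) = z := by
    have h1 := (hK.mul hF).unique (by rw [inv_mul_cancel]; exact IsLift.one)
    exact fun z => congrFun h1 z
  have hKfix : ∀ z, exp z ∈ Cset → K z = z := fun z hz => by
    have := hKF z
    rwa [hfix z hz] at this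
  obtain ⟨d, hd⟩ : ∃ d : Sig → ℝ, d = fun w : Sig => (K (log w)).im - (log (w : ℂ)).im := ⟨_, rfl⟩
  have hdc : Continuous d := by
    rw [hd]
    refine continuous_log_comp (G := fun z => (K z).im - z.im)
      ((continuous_im.comp hK.cont).sub continuous_im) ?_ continuous_subtype_val Sig_ne_zero
    intro z k
    rw [hK.add_int_per, add_im, add_im]
    ring
  refine ⟨⟨⟨⟨fun p => angle p.2 * Circle.exp ((1 - (p.1 : ℝ)) * d p.2), ?_⟩, fun w => ?_,
    fun w => ?_⟩, fun t w hw => ?_⟩⟩
  · refine (angle.continuous.comp continuous_snd).mul (Circle.exp.continuous.comp ?_)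
    exact (continuous_const.sub (continuous_subtype_val.comp continuous_fst)).mul
      (hdc.comp continuous_snd)
  · change angle w * Circle.exp ((1 - ((0 : unitInterval) : ℝ)) * d w) =
      angle ((ρ⁻¹ : homeoRel Sig bdry).1 w)
    apply Subtype.ext
    change (angle w : ℂ) * (Circle.exp ((1 - ((0 : unitInterval) : ℝ)) * d w) : ℂ) =
      (angle ((ρ⁻¹ : homeoRel Sig bdry).1 w) : ℂ)
    rw [angle_exp (z := log w) (exp_log (Sig_ne_zero w)).symm, Circle.coe_exp,
      angle_exp (z := K (log w)), ← exp_add]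
    · congr 1
      rw [hd]
      rw [Set.Icc.coe_zero]
      push_cast
      ring
    · rw [hK.exp_eq, exp_log (Sig_ne_zero w), ext_of_mem _ w.2]
  · change angle w * Circle.exp ((1 - ((1 : unitInterval) : ℝ)) * d w) = angle w
    rw [Set.Icc.coe_one, sub_self, zero_mul, Circle.exp_zero, mul_one]
  · change angle w * Circle.exp ((1 - (t : ℝ)) * d w) = angle ((ρ⁻¹ : homeoRel Sig bdry).1 w)
    have h1 : (w : ℂ) ∈ Cset := mem_Cset_of_bdry (marks_subset hw)
    have h2 : d w = 0 := by
      rw [hd]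
      change (K (log w)).im - (log (w : ℂ)).im = 0
      rw [hKfix _ (by rwa [exp_log (Sig_ne_zero w)]), sub_self]
    rw [h2, mul_zero, Circle.exp_zero, mul_one, (ρ⁻¹ : homeoRel Sig bdry).2 w (marks_subset hw)]

/-- Equivariant homeomorphisms of the plane over the identity on the holes. -/
structure Good (F : ℂ ≃ₜ ℂ) : Prop where
  per : ∀ z, F (z + MF.per) = F z + MF.per
  fix : ∀ z, exp z ∈ Cset → exp (F z) = exp z

theorem add_int_per_of {F : ℂ → ℂ} (hF : ∀ z, F (z + per) = F z + per) (z : ℂ) (k : ℤ) :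
    F (z + k * per) = F z + k * per := by
  induction k using Int.induction_on with
  | zero => simp
  | succ k ih =>
    have := hF (z + k * per)
    push_cast
    rw [show z + ((k : ℂ) + 1) * per = z + k * per + per by ring, this]
    push_cast at ih
    rw [ih]
    ring
  | pred k ih =>
    have := hF (z + (-(k : ℂ) - 1) * per)
    push_cast at ih ⊢
    rw [show z + (-(k : ℂ) - 1) * per + per = z + -(k : ℂ) * per by ring, ih] at this
    linear_combination (-1 : ℂ) * this

theorem Good.add_int_per {F : ℂ ≃ₜ ℂ} (hF : Good F) (z : ℂ) (k : ℤ) :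
    F (z + k * MF.per) = F z + k * MF.per := add_int_per_of hF.per z k

theorem Good.symm {F : ℂ ≃ₜ ℂ} (hF : Good F) : Good F.symm := by
  refine ⟨fun z => ?_, fun z hz => ?_⟩
  · apply F.injective
    rw [F.apply_symm_apply, hF.per, F.apply_symm_apply]
  · obtain ⟨k, hk⟩ := exp_eq_iff.1 (hF.fix z hz)
    have h1 : F (z + ((-k : ℤ) : ℂ) * MF.per) = z := by
      rw [hF.add_int_per, hk]
      push_cast
      ring
    have h2 : F.symm z = z + ((-k : ℤ) : ℂ) * MF.per := by
      rw [F.symm_apply_eq, h1]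
    rw [h2, exp_add_int_per]

theorem Good.mem {F : ℂ ≃ₜ ℂ} (hF : Good F) {w : ℂ} (hw : w ∈ Sig) : exp (F (log w)) ∈ Sig := by
  have hw0 : w ≠ 0 := Sig_ne_zero ⟨w, hw⟩
  by_contra hc
  have h1 := hF.symm.fix (F (log w)) (mem_Cset_of_notMem hc)
  rw [F.symm_apply_apply, exp_log hw0] at h1
  rw [← h1] at hc
  exact hc hw

theorem Good.desc_aux {F : ℂ ≃ₜ ℂ} (hF : Good F) {w : ℂ} (hw : w ≠ 0) :
    exp (F.symm (log (exp (F (log w))))) = w := by
  obtain ⟨k, hk⟩ := log_exp_eq (F (log w))
  rw [hk, hF.symm.add_int_per, F.symm_apply_apply, exp_add_int_per, exp_log hw]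

theorem Good.cont {F : ℂ ≃ₜ ℂ} (hF : Good F) :
    Continuous fun w : Sig => exp (F (log (w : ℂ))) := by
  refine continuous_log_comp (G := fun z => exp (F z)) (continuous_exp.comp F.continuous) ?_
    continuous_subtype_val Sig_ne_zero
  intro z k
  rw [hF.add_int_per, exp_add_int_per]

/-- The homeomorphism of the surface covered by an equivariant homeomorphism. -/
noncomputable def desc (F : ℂ ≃ₜ ℂ) (hF : Good F) : homeoRel Sig bdry :=
  ⟨{ toFun := fun w => ⟨exp (F (log w)), hF.mem w.2⟩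
     invFun := fun w => ⟨exp (F.symm (log w)), hF.symm.mem w.2⟩
     left_inv := fun w => Subtype.ext (hF.desc_aux (Sig_ne_zero w))
     right_inv := fun w => Subtype.ext (hF.symm.desc_aux (Sig_ne_zero w))
     continuous_toFun := hF.cont.subtype_mk _
     continuous_invFun := hF.symm.cont.subtype_mk _ }, fun w hw => by
    apply Subtype.ext
    change exp (F (log (w : ℂ))) = w
    rw [hF.fix, exp_log (Sig_ne_zero w)]
    rw [exp_log (Sig_ne_zero w)]
    exact mem_Cset_of_bdry hw⟩

theorem isLift_desc {F : ℂ ≃ₜ ℂ} (hF : Good F) (h0 : F (-lam) = -lam) : IsLift (desc F hF) F := by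
  refine ⟨F.continuous, fun z => ?_, h0⟩
  by_cases hz : exp z ∈ Sig
  · rw [ext_of_mem _ hz]
    change exp (F z) = exp (F (log (exp z)))
    obtain ⟨k, hk⟩ := log_exp_eq z
    rw [hk, hF.add_int_per, exp_add_int_per]
  · rw [ext_of_notMem _ hz, hF.fix z (mem_Cset_of_notMem hz)]

end Pool.Agent.R788.MF
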