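import Pool.Agent.R788.MF.Val

/-!
# The first homology of the stabiliser is not finitely generated
-/

set_option autoImplicit false

open Topology Complex

namespace Pool.Agent.R788.MF

/-- The homomorphism given by the invariants. -/
noncomputable def chom : stab angle marks marks_subset →* Multiplicative (ℤ → ℂ) where
  toFun ρ := Multiplicative.ofAdd fun j => cval j ρ.1
  map_one' := by
    have h : (fun j => cval j (1 : stab angle marks marks_subset).1) = 0 := by
      funext j
      exact (isot_aux (one_mem (isotId Sig bdry)) j).2
    rw [h]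
    rfl
  map_mul' g h := by
    rw [← ofAdd_add]
    congr 1
    funext j
    exact cval_mul fun F hF => fix_of_stab h.2 hF

/-- The projection of the stabiliser to the mapping class group. -/
noncomputable def proj : stab angle marks marks_subset →* MCGf angle marks marks_subset :=
  (QuotientGroup.mk' (isotId Sig bdry)).subgroupMap (stab angle marks marks_subset)

theorem proj_surj : Function.Surjective proj :=
  (QuotientGroup.mk' (isotId Sig bdry)).subgroupMap_surjective (stab angle marks marks_subset)

theorem proj_ker : proj.ker ≤ chom.ker := by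
  intro ρ hρ
  rw [MonoidHom.mem_ker] at hρ ⊢
  have h1 : (QuotientGroup.mk' (isotId Sig bdry)) ρ.1 = 1 := congrArg Subtype.val hρ
  have h2 : ρ.1 ∈ isotId Sig bdry := (QuotientGroup.eq_one_iff _).1 h1
  have h3 : (fun j => cval j ρ.1) = 0 := by
    funext j
    exact (isot_aux h2 j).2
  change Multiplicative.ofAdd (fun j => cval j ρ.1) = 1
  rw [h3]
  rfl

/-- The homomorphism on the stabiliser in the mapping class group. -/
noncomputable def cbar : MCGf angle marks marks_subset →* Multiplicative (ℤ → ℂ) :=
  MonoidHom.liftOfSurjective proj proj_surj ⟨chom, proj_ker⟩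

theorem cbar_proj (ρ : stab angle marks marks_subset) : cbar (proj ρ) = chom ρ :=
  MonoidHom.liftOfRightInverse_comp_apply proj _ _ ⟨chom, proj_ker⟩ ρ

/-- The linear map on the abelianisation. -/
noncomputable def clin : Additive (Abelianization (MCGf angle marks marks_subset)) →ₗ[ℤ]
    (ℤ → ℂ) :=
  (MonoidHom.toAdditiveLeft (Abelianization.lift cbar)).toIntLinearMap

theorem not_finite_ab :
    ¬ Module.Finite ℤ (Additive (Abelianization (MCGf angle marks marks_subset))) := by
  intro hfin
  obtain ⟨x, hx⟩ : ∃ x : ℕ → Additive (Abelianization (MCGf angle marks marks_subset)),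
      x = fun n : ℕ => Additive.ofMul (Abelianization.of (proj ⟨rho ((n : ℤ) + 1), rho_mem _⟩)) :=
    ⟨_, rfl⟩
  have h1 : ∀ n j, clin (x n) j =
      (if j = (n : ℤ) + 1 then per else 0) - if j = 0 then per else 0 := by
    intro n j
    rw [← cval_rho, hx]
    change Multiplicative.toAdd (Abelianization.lift cbar (Abelianization.of
      (proj ⟨rho ((n : ℤ) + 1), rho_mem _⟩))) j = _
    rw [Abelianization.lift_apply_of, cbar_proj]
    rfl
  have h2 : LinearIndependent ℤ (clin ∘ x) := by
    rw [linearIndependent_iff']
    intro s g hg i hi
    have h3 := congrFun hg ((i : ℤ) + 1)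
    rw [Finset.sum_apply, Finset.sum_eq_single i] at h3
    · rw [Pi.smul_apply, Function.comp_apply, h1, if_pos rfl, if_neg (by omega), sub_zero,
        Pi.zero_apply, zsmul_eq_mul] at h3
      rcases mul_eq_zero.1 h3 with h4 | h4
      · exact_mod_cast h4
      · exact absurd h4 per_ne
    · intro b _ hb
      rw [Pi.smul_apply, Function.comp_apply, h1, if_neg (by omega), if_neg (by omega), sub_zero,
        smul_zero]
    · intro h
      exact absurd hi h
  have h3 := h2.of_comp
  exact not_finite_iff_infinite.2 inferInstance h3.finite_of_isNoetherian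

theorem finite_of_addEquiv {M N : Type} [AddCommGroup M] [i1 : Module ℤ M] [AddCommGroup N]
    [i2 : Module ℤ N] (e : M ≃+ N) (h : Module.Finite ℤ M) : Module.Finite ℤ N := by
  have e1 : i1 = AddCommGroup.toIntModule M := Subsingleton.elim _ _
  have e2 : i2 = AddCommGroup.toIntModule N := Subsingleton.elim _ _
  subst e1 e2
  exact Module.Finite.equiv e.toIntLinearEquiv

theorem not_finite_H1 : ¬ Module.Finite ℤ
    (groupHomology (Rep.trivial ℤ (MCGf angle marks marks_subset) ℤ) 1) := by
  intro h
  have h1 := finite_of_addEquiv (groupHomology.H1AddEquivOfIsTrivial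
    (Rep.trivial ℤ (MCGf angle marks marks_subset) ℤ)) h
  have h2 : Module.Finite ℤ (Additive (Abelianization (MCGf angle marks marks_subset))) :=
    finite_of_addEquiv (TensorProduct.rid ℤ
      (Additive (Abelianization (MCGf angle marks marks_subset)))).toAddEquiv h1
  exact not_finite_ab h2

end Pool.Agent.R788.MF
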