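import Pool.Agent.R788.MF.Lift

/-!
# The invariants, and the stabiliser of the angle map
-/

set_option autoImplicit false

open Topology Complex

namespace Pool.Agent.R788.MF

/-! ### The invariants -/

theorem exists_cval (j : ℤ) (h : homeoRel Sig bdry) :
    ∃ c : ℂ, ∀ F L, IsLift h F → IsLog j F L → L lam - L (pt 0) = c := by
  obtain ⟨F, hF⟩ := exists_lift h
  obtain ⟨L, hL, -⟩ := exists_isLog hF j
  refine ⟨L lam - L (pt 0), fun F' L' hF' hL' => ?_⟩
  have h1 := hF'.unique hF
  subst h1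
  linear_combination hL'.unique hL lam (pt 0)

/-- The invariant: the winding of the lifted point over `3` minus that of the zeroth point over
`1/3`, both with respect to the `j`-th point over `1/3`. -/
noncomputable def cval (j : ℤ) (h : homeoRel Sig bdry) : ℂ := (exists_cval j h).choose

theorem cval_eq {j : ℤ} {h : homeoRel Sig bdry} {F L : ℂ → ℂ} (hF : IsLift h F)
    (hL : IsLog j F L) : cval j h = L lam - L (pt 0) :=
  ((exists_cval j h).choose_spec F L hF hL).symm

theorem cval_mul {j : ℤ} {g h : homeoRel Sig bdry} (hh : ∀ F, IsLift h F → F lam = lam) :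
    cval j (g * h) = cval j g + cval j h := by
  obtain ⟨F, hF⟩ := exists_lift g
  obtain ⟨L, hL, -⟩ := exists_isLog hF j
  obtain ⟨K, hK⟩ := exists_lift h
  obtain ⟨M, hM, -⟩ := exists_isLog hK j
  rw [cval_eq hF hL, cval_eq hK hM, cval_eq (hF.mul hK) (IsLog.comp hK.cont hL hM), hh K hK, hK.pt]
  ring

theorem exp_three_sub {h : homeoRel Sig bdry} {F : ℂ → ℂ} (hF : IsLift h F) :
    exp (F lam - lam) = 1 := by
  rw [exp_sub, hF.exp_eq, exp_lam, ext_of_Cset _ mem_C_three, div_self (by norm_num)]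

theorem isot_aux {h : homeoRel Sig bdry} (hh : h ∈ isotId Sig bdry) (j : ℤ) :
    (∀ F, IsLift h F → F lam = lam) ∧ cval j h = 0 := by
  obtain ⟨H, hH, hH0, hH1⟩ := hh
  obtain ⟨h', hh'⟩ : ∃ h' : ℝ → homeoRel Sig bdry,
      h' = fun t => H (Set.projIcc 0 1 zero_le_one t) := ⟨_, rfl⟩
  have h0 : h' 0 = 1 := by
    rw [hh']
    change H (Set.projIcc 0 1 zero_le_one 0) = 1
    rw [Set.projIcc_left]
    exact hH0
  have h1 : h' 1 = h := by
    rw [hh']
    change H (Set.projIcc 0 1 zero_le_one 1) = h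
    rw [Set.projIcc_right]
    exact hH1
  have hc : Continuous fun p : ℝ × Sig => (h' p.1).1 p.2 := by
    rw [hh']
    have hp : Continuous (Set.projIcc (0 : ℝ) 1 zero_le_one) := continuous_projIcc
    exact hH.comp ((hp.comp continuous_fst).prodMk continuous_snd)
  obtain ⟨F, hF, hF'⟩ := exists_lift_family hc
  have hF0 : (fun z => F (0, z)) = id := (hF' 0).unique (by rw [h0]; exact IsLift.one)
  have hfix : ∀ t, F (t, lam) = lam := by
    intro t
    have h2 : F (t, lam) - lam = F (0, lam) - lam := by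
      refine const_of_exp (X := ℝ) (u := fun t => F (t, lam) - lam) ?_ (fun t => ?_) t 0
      · exact (hF.comp (continuous_id.prodMk continuous_const)).sub continuous_const
      · exact exp_three_sub (hF' t)
    have h3 : F (0, lam) = lam := congrFun hF0 lam
    rw [h3, sub_self] at h2
    exact sub_eq_zero.1 h2
  have hF1 : IsLift h fun z => F (1, z) := by
    have := hF' 1
    rwa [h1] at this
  refine ⟨fun K hK => ?_, ?_⟩
  · rw [hK.unique hF1]
    exact hfix 1
  obtain ⟨L, hL, hL1, hL2⟩ := exists_log_family hF hF' j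
  rw [cval_eq hF1 (hL1 1)]
  have hu : L (1, lam) - L (1, pt 0) = L (0, lam) - L (0, pt 0) := by
    refine const_of_exp (X := ℝ) (u := fun t => L (t, lam) - L (t, pt 0)) ?_ (fun t => ?_) 1 0
    · exact (hL.comp (continuous_id.prodMk continuous_const)).sub
        (hL.comp (continuous_id.prodMk continuous_const))
    · have e1 : exp (L (t, lam)) = 1 := by
        have h4 : exp (L (t, lam)) * (lam - pt j) = F (t, lam) - pt j := (hL1 t).eq lam
        rw [hfix t] at h4
        have h5 : lam - pt j ≠ 0 := by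
          intro h6
          have h7 : exp lam = exp (pt j) := by rw [sub_eq_zero.1 h6]
          rw [exp_lam, exp_pt] at h7
          norm_num at h7
        exact mul_right_cancel₀ h5 (by rw [h4, one_mul])
      have e2 : exp (L (t, pt 0)) = 1 := by
        by_cases hj : j = 0
        · rw [← hj]
          exact hL2 t
        · have h4 : exp (L (t, pt 0)) * (pt 0 - pt j) = F (t, pt 0) - pt j := (hL1 t).eq (pt 0)
          have h6 : F (t, pt 0) = pt 0 := (hF' t).pt 0
          rw [h6] at h4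
          have h5 : pt 0 - pt j ≠ 0 := by
            intro h6
            exact hj (pt_inj (sub_eq_zero.1 h6)).symm
          exact mul_right_cancel₀ h5 (by rw [h4, one_mul])
      change exp (L (t, lam) - L (t, pt 0)) = 1
      rw [exp_sub, e1, e2, div_one]
  change L (1, lam) - L (1, pt 0) = 0
  rw [hu]
  have h8 : IsLog j _root_.id fun z => L (0, z) := by
    have := hL1 0
    rwa [hF0] at this
  have := h8.unique (IsLog.id j) lam (pt 0)
  linear_combination this

/-! ### The stabiliser of the angle map -/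

theorem norm_exp_eq (z : ℂ) : ((‖exp z‖ : ℝ) : ℂ) = exp (z.re : ℂ) := by
  rw [norm_exp, ofReal_exp]

theorem angle_exp {w : Sig} {z : ℂ} (h : (w : ℂ) = exp z) : ((angle w : Circle) : ℂ) =
    exp ((z.im : ℂ) * I) := by
  change (w : ℂ) / ((‖(w : ℂ)‖ : ℝ) : ℂ) = _
  rw [h, norm_exp_eq, ← exp_sub]
  congr 1
  nth_rewrite 1 [← re_add_im z]
  ring

theorem exp_real_log {x : ℝ} (hx : 0 < x) : exp ((Real.log x : ℝ) : ℂ) = (x : ℂ) := by
  rw [← ofReal_exp, Real.exp_log hx]

theorem const_seg {h : homeoRel Sig bdry} {K : ℂ → ℂ} (hK : IsLift h K) {a b : ℝ} (ha : 0 < a)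
    (hab : a ≤ b) (hC : ∀ x ∈ Set.Icc a b, (x : ℂ) ∈ Cset) :
    K (Real.log a : ℝ) - (Real.log a : ℝ) = K (Real.log b : ℝ) - (Real.log b : ℝ) := by
  have : PreconnectedSpace (Set.Icc a b) := isPreconnected_iff_preconnectedSpace.1 isPreconnected_Icc
  have hc : Continuous fun x : Set.Icc a b => ((Real.log (x : ℝ) : ℝ) : ℂ) := by
    refine continuous_ofReal.comp (Continuous.log continuous_subtype_val fun x => ?_)
    exact (lt_of_lt_of_le ha x.2.1).ne'
  exact const_of_exp (X := Set.Icc a b) (u := fun x => K (Real.log x : ℝ) - (Real.log x : ℝ))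
    ((hK.cont.comp hc).sub hc) (fun x => by
      have hx : (0 : ℝ) < x := lt_of_lt_of_le ha x.2.1
      rw [exp_sub, hK.exp_eq, exp_real_log hx, ext_of_Cset _ (hC x x.2), div_self]
      exact_mod_cast hx.ne') ⟨a, le_refl a, hab⟩ ⟨b, hab, le_refl b⟩

theorem seg_mem {x : ℝ} (h : x ∈ Set.Icc (13 / 30 : ℝ) (29 / 10)) : (x : ℂ) ∈ Sig := by
  have e3 : ((x : ℂ) - 3) = ((x - 3 : ℝ) : ℂ) := by push_cast; ring
  have e4 : ((x : ℂ) - 1 / 3) = ((x - 1 / 3 : ℝ) : ℂ) := by push_cast; ring
  obtain ⟨h1, h2⟩ := h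
  refine ⟨?_, ?_, ?_, ?_⟩
  · rw [norm_real, Real.norm_eq_abs, abs_of_pos (by linarith)]; linarith
  · rw [norm_real, Real.norm_eq_abs, abs_of_pos (by linarith)]; linarith
  · rw [e3, norm_real, Real.norm_eq_abs, abs_of_neg (by linarith)]; linarith
  · rw [e4, norm_real, Real.norm_eq_abs, abs_of_pos (by linarith)]; linarith

theorem angle_pos {w : Sig} {x : ℝ} (hx : 0 < x) (h : (w : ℂ) = x) : angle w = 1 := by
  apply Subtype.ext
  change (angle w : ℂ) = 1
  rw [angle_exp (z := (Real.log x : ℝ)) (by rw [h, exp_real_log hx]), ofReal_im, ofReal_zero,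
    zero_mul, exp_zero]

theorem fix_of_stab {ρ : homeoRel Sig bdry} (hρ : ρ ∈ stab angle marks marks_subset)
    {F : ℂ → ℂ} (hF : IsLift ρ F) : F lam = lam := by
  obtain ⟨K, hK⟩ := exists_lift ρ⁻¹
  obtain ⟨H⟩ := hρ
  have hle : (13 / 30 : ℝ) ≤ 29 / 10 := by norm_num
  obtain ⟨a, ha⟩ : ∃ a : Set.Icc (13 / 30 : ℝ) (29 / 10) → Sig, a = fun x =>
    ⟨((x : ℝ) : ℂ), seg_mem x.2⟩ := ⟨_, rfl⟩
  have hac : Continuous a := by
    rw [ha]
    exact (continuous_ofReal.comp continuous_subtype_val).subtype_mk _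
  have haval : ∀ x, (a x : ℂ) = ((x : ℝ) : ℂ) := fun x => by rw [ha]
  have hpos : ∀ x : Set.Icc (13 / 30 : ℝ) (29 / 10), (0 : ℝ) < x := fun x => by
    have := x.2.1
    linarith
  obtain ⟨G, hG⟩ : ∃ G : ℝ × ℝ → ℂ, G = fun p => ((H (Set.projIcc 0 1 zero_le_one p.1,
    a (Set.projIcc (13 / 30 : ℝ) (29 / 10) hle p.2)) : Circle) : ℂ) := ⟨_, rfl⟩
  have hGc : Continuous G := by
    rw [hG]
    exact continuous_subtype_val.comp (H.continuous.comp
      ((continuous_projIcc.comp continuous_fst).prodMk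
        (hac.comp (continuous_projIcc.comp continuous_snd))))
  obtain ⟨l, hl, hl'⟩ := exists_log hGc fun p => by rw [hG]; exact Circle.coe_ne_zero _
  have h1 : ∀ x : ℝ, exp (l (1, x)) = 1 := by
    intro x
    rw [hl', hG]
    change ((H (Set.projIcc 0 1 zero_le_one 1, a (Set.projIcc (13 / 30 : ℝ) (29 / 10) hle x)) :
      Circle) : ℂ) = 1
    rw [Set.projIcc_right]
    change ((H (1, a (Set.projIcc (13 / 30 : ℝ) (29 / 10) hle x)) : Circle) : ℂ) = 1
    rw [H.apply_one, angle_pos (hpos _) (haval _)]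
    rfl
  have hm : ∀ x : Set.Icc (13 / 30 : ℝ) (29 / 10), a x ∈ marks → ∀ t : ℝ,
      exp (l (t, x)) = 1 := by
    intro x hx t
    rw [hl', hG]
    change ((H (Set.projIcc 0 1 zero_le_one t, a (Set.projIcc (13 / 30 : ℝ) (29 / 10) hle x)) :
      Circle) : ℂ) = 1
    rw [Set.projIcc_val, H.eq_snd _ hx, angle_pos (hpos _) (haval _)]
    rfl
  have e1 : l (1, 13 / 30) = l (1, 29 / 10) :=
    const_of_exp (X := ℝ) (u := fun x => l (1, x)) (hl.comp (continuous_const.prodMk continuous_id))
      h1 _ _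
  have hm1 : a ⟨13 / 30, le_refl _, hle⟩ ∈ marks := by
    refine Or.inr (Or.inr (Or.inr ?_))
    rw [haval]
    push_cast
    norm_num
  have hm2 : a ⟨29 / 10, hle, le_refl _⟩ ∈ marks := by
    refine Or.inr (Or.inr (Or.inl ?_))
    rw [haval]
    push_cast
    norm_num
  have e2 : l (0, 13 / 30) = l (1, 13 / 30) :=
    const_of_exp (X := ℝ) (u := fun t => l (t, 13 / 30))
      (hl.comp (continuous_id.prodMk continuous_const)) (hm _ hm1) _ _
  have e3 : l (0, 29 / 10) = l (1, 29 / 10) :=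
    const_of_exp (X := ℝ) (u := fun t => l (t, 29 / 10))
      (hl.comp (continuous_id.prodMk continuous_const)) (hm _ hm2) _ _
  have : PreconnectedSpace (Set.Icc (13 / 30 : ℝ) (29 / 10)) :=
    isPreconnected_iff_preconnectedSpace.1 isPreconnected_Icc
  have hlog : Continuous fun x : Set.Icc (13 / 30 : ℝ) (29 / 10) =>
      ((Real.log (x : ℝ) : ℝ) : ℂ) := by
    exact continuous_ofReal.comp (Continuous.log continuous_subtype_val fun x => (hpos x).ne')
  have e4 : l (0, 13 / 30) - ((K (Real.log (13 / 30) : ℝ)).im : ℂ) * I =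
      l (0, 29 / 10) - ((K (Real.log (29 / 10) : ℝ)).im : ℂ) * I := by
    refine const_of_exp (X := Set.Icc (13 / 30 : ℝ) (29 / 10))
      (u := fun x => l (0, x) - ((K (Real.log x : ℝ)).im : ℂ) * I) ?_ (fun x => ?_)
      ⟨13 / 30, le_refl _, hle⟩ ⟨29 / 10, hle, le_refl _⟩
    · refine (hl.comp (continuous_const.prodMk continuous_subtype_val)).sub ?_
      exact (continuous_ofReal.comp (continuous_im.comp (hK.cont.comp hlog))).mul continuous_const
    · rw [exp_sub, hl', hG]
      change ((H (Set.projIcc 0 1 zero_le_one 0, a (Set.projIcc (13 / 30 : ℝ) (29 / 10) hle x)) :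
        Circle) : ℂ) / _ = 1
      rw [Set.projIcc_val, Set.projIcc_left]
      change ((H (0, a x) : Circle) : ℂ) / _ = 1
      rw [H.apply_zero]
      change ((angle ((ρ⁻¹ : homeoRel Sig bdry).1 (a x)) : Circle) : ℂ) / _ = 1
      rw [angle_exp (z := K (Real.log x : ℝ)), div_self (exp_ne_zero _)]
      rw [hK.exp_eq, exp_real_log (hpos x), ext_of_mem _ (seg_mem x.2)]
      congr 3
      apply Subtype.ext
      exact haval x
  have e5 : K (Real.log (13 / 30) : ℝ) = (Real.log (13 / 30) : ℝ) := by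
    have h2 := const_seg hK (a := 1 / 3) (b := 13 / 30) (by norm_num) (by norm_num) fun x hx => by
      refine Or.inr (Or.inr (Or.inr ?_))
      have e : ((x : ℂ) - 1 / 3) = ((x - 1 / 3 : ℝ) : ℂ) := by push_cast; ring
      obtain ⟨hx1, hx2⟩ := hx
      rw [e, norm_real, Real.norm_eq_abs, abs_le]
      constructor <;> linarith
    have h3 : ((Real.log (1 / 3) : ℝ) : ℂ) = -lam := by
      rw [lam, one_div, Real.log_inv]
      push_cast
      rfl
    rw [h3, hK.norm, sub_self] at h2
    exact (sub_eq_zero.1 h2.symm)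
  have e6 : K lam - lam = K (Real.log (29 / 10) : ℝ) - (Real.log (29 / 10) : ℝ) := by
    have h2 := const_seg hK (a := 29 / 10) (b := 3) (by norm_num) (by norm_num) fun x hx => by
      refine Or.inr (Or.inr (Or.inl ?_))
      have e : ((x : ℂ) - 3) = ((x - 3 : ℝ) : ℂ) := by push_cast; ring
      obtain ⟨hx1, hx2⟩ := hx
      rw [e, norm_real, Real.norm_eq_abs, abs_le]
      constructor <;> linarith
    exact h2.symm
  have e7 : (K (Real.log (29 / 10) : ℝ)).im = 0 := by
    have h2 : ((K (Real.log (13 / 30) : ℝ)).im : ℂ) * I =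
        ((K (Real.log (29 / 10) : ℝ)).im : ℂ) * I := by
      have h3 : l (0, 13 / 30) = l (0, 29 / 10) := by rw [e2, e1, e3]
      linear_combination (-1 : ℂ) * e4 + h3
    have h3 := mul_right_cancel₀ I_ne_zero h2
    rw [e5, ofReal_im] at h3
    exact_mod_cast h3.symm
  have e8 : (K lam - lam).im = 0 := by
    rw [e6, sub_im, e7, ofReal_im, sub_zero]
  have e9 : K lam = lam := by
    obtain ⟨n, hn⟩ := exp_eq_iff.1 ((exp_three_sub hK).trans exp_zero.symm)
    rw [zero_add] at hn
    rw [hn, per] at e8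
    have h2 : ((n : ℂ) * (2 * Real.pi * I)).im = n * (2 * Real.pi) := by
      have : ((n : ℂ) * (2 * Real.pi * I)) = ((n * (2 * Real.pi) : ℝ) : ℂ) * I := by
        push_cast; ring
      rw [this, im_ofReal_mul, I_im, mul_one]
    rw [h2] at e8
    have h3 : (n : ℝ) = 0 := by
      rcases mul_eq_zero.1 e8 with h | h
      · exact h
      · have := Real.pi_pos
        exfalso
        linarith
    have h4 : n = 0 := by exact_mod_cast h3
    rw [h4, Int.cast_zero, zero_mul] at hn
    exact sub_eq_zero.1 hn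
  have h3 := (hF.mul hK).unique (by rw [mul_inv_cancel]; exact IsLift.one)
  have h4 : F (K lam) = lam := congrFun h3 lam
  rwa [e9] at h4

end Pool.Agent.R788.MF
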