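import Pool.Agent.R788.MF.Defs

/-!
# Lifts to the universal cover of the punctured plane, and continuous logarithms
-/

set_option autoImplicit false

open Topology Complex

namespace Pool.Agent.R788.MF

/-! ### Continuous logarithms -/

theorem exists_log {X : Type} [TopologicalSpace X] [SimplyConnectedSpace X]
    [LocallyPathConnectedSpace X] {g : X → ℂ} (hg : Continuous g) (h0 : ∀ x, g x ≠ 0) :
    ∃ l : X → ℂ, Continuous l ∧ ∀ x, exp (l x) = g x := by
  obtain ⟨x₀⟩ : Nonempty X := inferInstance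
  let G : C(X, {z : ℂ // z ≠ 0}) := ⟨fun x => ⟨g x, h0 x⟩, hg.subtype_mk _⟩
  obtain ⟨F, ⟨-, hF⟩, -⟩ := isCoveringMap_exp.existsUnique_continuousMap_lifts G (a₀ := x₀)
    (e₀ := log (g x₀)) (by
      apply Subtype.ext
      exact exp_log (h0 x₀))
  refine ⟨F, F.continuous, fun x => ?_⟩
  have := congrFun hF x
  exact congrArg Subtype.val this

theorem lift_unique {X : Type} [TopologicalSpace X] [PreconnectedSpace X] {u v : X → ℂ}
    (hu : Continuous u) (hv : Continuous v) (h : ∀ x, exp (u x) = exp (v x)) (a : X)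
    (ha : u a = v a) : u = v :=
  isCoveringMap_exp.eq_of_comp_eq hu hv (by funext x; exact Subtype.ext (h x)) a ha

/-- A continuous function with exponential `1` is constant. -/
theorem const_of_exp {X : Type} [TopologicalSpace X] [PreconnectedSpace X] {u : X → ℂ}
    (hu : Continuous u) (h : ∀ x, exp (u x) = 1) (a b : X) : u a = u b := by
  have := lift_unique hu (continuous_const (y := u b)) (fun x => by rw [h x, h b]) b rfl
  exact congrFun this a

theorem const_of_exp_on {u : ℂ → ℂ} {s : Set ℂ} (hs : IsPreconnected s) (hu : ContinuousOn u s)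
    (h : ∀ x ∈ s, exp (u x) = 1) {a b : ℂ} (ha : a ∈ s) (hb : b ∈ s) : u a = u b := by
  have : PreconnectedSpace s := isPreconnected_iff_preconnectedSpace.1 hs
  exact const_of_exp (X := s) (u := fun x => u x) (continuousOn_iff_continuous_domRestrict.1 hu)
    (fun x => h x x.2) ⟨a, ha⟩ ⟨b, hb⟩

/-- The period. -/
noncomputable def per : ℂ := 2 * Real.pi * I

theorem exp_per : exp per = 1 := by
  rw [per]; exact exp_two_pi_mul_I

theorem per_ne : per ≠ 0 := two_pi_I_ne_zero

theorem exp_add_per (z : ℂ) : exp (z + per) = exp z := by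
  rw [exp_add, exp_per, mul_one]

theorem exp_add_int_per (z : ℂ) (k : ℤ) : exp (z + k * per) = exp z := by
  rw [exp_add, per, exp_int_mul_two_pi_mul_I, mul_one]

theorem exp_eq_iff {z w : ℂ} : exp z = exp w ↔ ∃ k : ℤ, z = w + k * per := by
  rw [exp_eq_exp_iff_exists_int]; rfl

/-- The basic joint logarithm. -/
theorem exists_joint_log {F : ℝ × ℂ → ℂ} (hF : Continuous F) {a : ℂ} {b u : ℝ → ℂ}
    (hb : Continuous b) (hu : Continuous u) (hu0 : ∀ t, u t ≠ 0) {r : ℝ} (hr : 0 < r)
    (hloc : ∀ t, ∀ z ∈ Metric.ball a r, F (t, z) = b t + u t * (z - a))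
    (hinj : ∀ t z, F (t, z) = b t → z = a) :
    ∃ L : ℝ × ℂ → ℂ, Continuous L ∧ (∀ t z, exp (L (t, z)) * (z - a) = F (t, z) - b t) ∧
      ∀ t, exp (L (t, a)) = u t := by
  classical
  let G : ℝ × ℂ → ℂ := fun p => if p.2 = a then u p.1 else (F p - b p.1) / (p.2 - a)
  have hG1 : ∀ t, ∀ z ∈ Metric.ball a r, G (t, z) = u t := by
    intro t z hz
    simp only [G]
    split_ifs with h
    · rfl
    · rw [hloc t z hz, add_sub_cancel_left, mul_div_cancel_right₀ _ (sub_ne_zero.2 h)]
  have hG : Continuous G := by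
    rw [continuous_iff_continuousAt]
    rintro ⟨t, z⟩
    by_cases hz : z = a
    · have h1 : G =ᶠ[𝓝 (t, z)] fun p => u p.1 := by
        have : {p : ℝ × ℂ | p.2 ∈ Metric.ball a r} ∈ 𝓝 (t, z) := by
          apply (Metric.isOpen_ball.preimage continuous_snd).mem_nhds
          rw [hz]
          exact Metric.mem_ball_self hr
        filter_upwards [this] with p hp
        exact hG1 p.1 p.2 hp
      exact (hu.comp continuous_fst).continuousAt.congr h1.symm
    · have h1 : G =ᶠ[𝓝 (t, z)] fun p => (F p - b p.1) / (p.2 - a) := by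
        have : {p : ℝ × ℂ | p.2 ≠ a} ∈ 𝓝 (t, z) :=
          (isOpen_ne.preimage continuous_snd).mem_nhds hz
        filter_upwards [this] with p hp
        simp only [G]
        rw [if_neg hp]
      refine ContinuousAt.congr ?_ h1.symm
      exact ContinuousAt.div (hF.sub (hb.comp continuous_fst)).continuousAt
        (continuous_snd.sub continuous_const).continuousAt (sub_ne_zero.2 hz)
  have hG0 : ∀ p, G p ≠ 0 := by
    rintro ⟨t, z⟩
    simp only [G]
    split_ifs with h
    · exact hu0 t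
    · exact div_ne_zero (fun h0 => h (hinj t z (sub_eq_zero.1 h0))) (sub_ne_zero.2 h)
  obtain ⟨L, hL, hL'⟩ := exists_log hG hG0
  refine ⟨L, hL, fun t z => ?_, fun t => ?_⟩
  · rw [hL']
    simp only [G]
    split_ifs with h
    · rw [h, sub_self, mul_zero]
      have := hloc t a (Metric.mem_ball_self hr)
      rw [this]
      ring
    · exact div_mul_cancel₀ _ (sub_ne_zero.2 h)
  · rw [hL']
    simp only [G, if_true]

/-! ### The extension of a homeomorphism of the surface by the identity -/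

/-- The closure of the complement of the surface. -/
def Cset : Set ℂ := {w | ‖w‖ ≤ 1 / 100 ∨ 100 ≤ ‖w‖ ∨ ‖w - 3‖ ≤ 1 / 10 ∨ ‖w - 1 / 3‖ ≤ 1 / 10}

theorem isClosed_Sig : IsClosed Sig := by
  have h1 : Sig = {w : ℂ | 1 / 100 ≤ ‖w‖} ∩ ({w | ‖w‖ ≤ 100} ∩ ({w | 1 / 10 ≤ ‖w - 3‖} ∩
      {w | 1 / 10 ≤ ‖w - 1 / 3‖})) := rfl
  rw [h1]
  refine (isClosed_le continuous_const continuous_norm).inter
    ((isClosed_le continuous_norm continuous_const).inter
      ((isClosed_le continuous_const (by fun_prop)).inter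
        (isClosed_le continuous_const (by fun_prop))))

theorem isClosed_Cset : IsClosed Cset := by
  have h1 : Cset = {w : ℂ | ‖w‖ ≤ 1 / 100} ∪ ({w | 100 ≤ ‖w‖} ∪ ({w | ‖w - 3‖ ≤ 1 / 10} ∪
      {w | ‖w - 1 / 3‖ ≤ 1 / 10})) := rfl
  rw [h1]
  refine (isClosed_le continuous_norm continuous_const).union
    ((isClosed_le continuous_const continuous_norm).union
      ((isClosed_le (by fun_prop) continuous_const).union
        (isClosed_le (by fun_prop) continuous_const)))

theorem mem_Cset_of_notMem {w : ℂ} (h : w ∉ Sig) : w ∈ Cset := by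
  by_contra hc
  apply h
  simp only [Cset, Set.mem_ofPred_eq, not_or, not_le] at hc
  exact ⟨hc.1.le, hc.2.1.le, hc.2.2.1.le, hc.2.2.2.le⟩

theorem mem_bdry {w : Sig} (h : (w : ℂ) ∈ Cset) : w ∈ bdry := by
  obtain ⟨h1, h2, h3, h4⟩ := w.2
  rcases h with h | h | h | h
  · exact Or.inl (le_antisymm h h1)
  · exact Or.inr (Or.inl (le_antisymm h2 h))
  · exact Or.inr (Or.inr (Or.inl (le_antisymm h h3)))
  · exact Or.inr (Or.inr (Or.inr (le_antisymm h h4)))

theorem mem_Cset_of_bdry {w : Sig} (h : w ∈ bdry) : (w : ℂ) ∈ Cset := by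
  rcases h with h | h | h | h
  · exact Or.inl h.le
  · exact Or.inr (Or.inl h.ge)
  · exact Or.inr (Or.inr (Or.inl h.le))
  · exact Or.inr (Or.inr (Or.inr h.le))

open Classical in
/-- The extension of a homeomorphism of the surface by the identity. -/
noncomputable def ext (h : homeoRel Sig bdry) (w : ℂ) : ℂ :=
  if hw : w ∈ Sig then (h.1 ⟨w, hw⟩ : ℂ) else w

theorem ext_of_mem (h : homeoRel Sig bdry) {w : ℂ} (hw : w ∈ Sig) : ext h w = h.1 ⟨w, hw⟩ := by
  rw [ext, dif_pos hw]

theorem ext_of_notMem (h : homeoRel Sig bdry) {w : ℂ} (hw : w ∉ Sig) : ext h w = w := by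
  rw [ext, dif_neg hw]

theorem ext_of_Cset (h : homeoRel Sig bdry) {w : ℂ} (hw : w ∈ Cset) : ext h w = w := by
  by_cases hw' : w ∈ Sig
  · rw [ext_of_mem h hw', h.2 ⟨w, hw'⟩ (mem_bdry hw)]
  · exact ext_of_notMem h hw'

theorem ext_mem (h : homeoRel Sig bdry) {w : ℂ} (hw : w ∈ Sig) : ext h w ∈ Sig := by
  rw [ext_of_mem h hw]
  exact (h.1 ⟨w, hw⟩).2

theorem ext_mul (g h : homeoRel Sig bdry) (w : ℂ) : ext (g * h) w = ext g (ext h w) := by
  by_cases hw : w ∈ Sig
  · rw [ext_of_mem _ hw, ext_of_mem h hw, ext_of_mem g (h.1 ⟨w, hw⟩).2]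
    rfl
  · rw [ext_of_notMem _ hw, ext_of_notMem h hw, ext_of_notMem g hw]

theorem ext_one (w : ℂ) : ext 1 w = w := by
  by_cases hw : w ∈ Sig
  · rw [ext_of_mem _ hw]
    rfl
  · rw [ext_of_notMem _ hw]

theorem ext_inj (h : homeoRel Sig bdry) {w w' : ℂ} (hw : ext h w = ext h w') : w = w' := by
  have h1 : ∀ w, ext h⁻¹ (ext h w) = w := by
    intro w
    rw [← ext_mul, inv_mul_cancel, ext_one]
  rw [← h1 w, hw, h1 w']

theorem ext_ne_zero (h : homeoRel Sig bdry) {w : ℂ} (hw : w ≠ 0) : ext h w ≠ 0 := by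
  have h0 : ext h 0 = 0 := ext_of_Cset h (Or.inl (by norm_num))
  intro h1
  rw [← h0] at h1
  exact hw (ext_inj h h1)

theorem continuous_ext {P : Type} [TopologicalSpace P] {h : P → homeoRel Sig bdry}
    (hh : Continuous fun p : P × Sig => (h p.1).1 p.2) :
    Continuous fun p : P × ℂ => ext (h p.1) p.2 := by
  rw [← continuousOn_univ]
  have hU : (Set.univ : Set (P × ℂ)) = Prod.snd ⁻¹' Sig ∪ Prod.snd ⁻¹' Cset := by
    ext p
    simp only [Set.mem_univ, Set.mem_union, Set.mem_preimage, true_iff]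
    by_cases hp : p.2 ∈ Sig
    · exact Or.inl hp
    · exact Or.inr (mem_Cset_of_notMem hp)
  rw [hU]
  refine ContinuousOn.union_of_isClosed ?_ ?_ (isClosed_Sig.preimage continuous_snd)
    (isClosed_Cset.preimage continuous_snd)
  · rw [continuousOn_iff_continuous_domRestrict]
    have h1 : ((Prod.snd ⁻¹' Sig : Set (P × ℂ)).domRestrict fun p : P × ℂ => ext (h p.1) p.2) =
        fun p : (Prod.snd ⁻¹' Sig : Set (P × ℂ)) =>
          (((h p.1.1).1 ⟨p.1.2, p.2⟩ : Sig) : ℂ) := by
      funext p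
      exact ext_of_mem _ p.2
    rw [h1]
    exact continuous_subtype_val.comp (hh.comp ((continuous_fst.comp continuous_subtype_val).prodMk
      ((continuous_snd.comp continuous_subtype_val).subtype_mk _)))
  · refine continuous_snd.continuousOn.congr ?_
    intro p hp
    exact ext_of_Cset _ hp

/-! ### Lifts -/

/-- The logarithm of `3`. -/
noncomputable def lam : ℂ := (Real.log 3 : ℝ)

theorem exp_lam : exp lam = 3 := by
  rw [lam, ← Complex.ofReal_exp, Real.exp_log (by norm_num)]
  norm_num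

theorem exp_neg_lam : exp (-lam) = 1 / 3 := by
  rw [exp_neg, exp_lam, one_div]

/-- The points over the centre `1/3`. -/
noncomputable def pt (j : ℤ) : ℂ := -lam + j * per

theorem exp_pt (j : ℤ) : exp (pt j) = 1 / 3 := by
  rw [pt, exp_add_int_per, exp_neg_lam]

theorem pt_zero : pt 0 = -lam := by simp [pt]

theorem pt_inj {i j : ℤ} (h : pt i = pt j) : i = j := by
  rw [pt, pt, add_right_inj, mul_left_inj' per_ne] at h
  exact_mod_cast h

theorem mem_C_third : (1 / 3 : ℂ) ∈ Cset := Or.inr (Or.inr (Or.inr (by norm_num)))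

theorem mem_C_three : (3 : ℂ) ∈ Cset := Or.inr (Or.inr (Or.inl (by norm_num)))

/-- `F` is the normalised lift of (the extension of) `h`. -/
structure IsLift (h : homeoRel Sig bdry) (F : ℂ → ℂ) : Prop where
  cont : Continuous F
  exp_eq : ∀ z, exp (F z) = ext h (exp z)
  norm : F (-lam) = -lam

theorem IsLift.unique {h : homeoRel Sig bdry} {F K : ℂ → ℂ} (hF : IsLift h F) (hK : IsLift h K) :
    F = K :=
  lift_unique hF.cont hK.cont (fun z => by rw [hF.exp_eq, hK.exp_eq]) (-lam)
    (by rw [hF.norm, hK.norm])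

theorem IsLift.one : IsLift 1 id :=
  ⟨continuous_id, fun z => by rw [ext_one]; rfl, rfl⟩

theorem IsLift.mul {g h : homeoRel Sig bdry} {F K : ℂ → ℂ} (hF : IsLift g F) (hK : IsLift h K) :
    IsLift (g * h) (F ∘ K) :=
  ⟨hF.cont.comp hK.cont, fun z => by
    rw [Function.comp_apply, hF.exp_eq, hK.exp_eq, ext_mul], by
    rw [Function.comp_apply, hK.norm, hF.norm]⟩

/-- Lifts of families. -/
theorem exists_lift_family {h : ℝ → homeoRel Sig bdry}
    (hh : Continuous fun p : ℝ × Sig => (h p.1).1 p.2) :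
    ∃ F : ℝ × ℂ → ℂ, Continuous F ∧ ∀ t, IsLift (h t) fun z => F (t, z) := by
  have h1 : Continuous fun p : ℝ × ℂ => ext (h p.1) (exp p.2) :=
    (continuous_ext hh).comp (continuous_fst.prodMk (continuous_exp.comp continuous_snd))
  obtain ⟨F, hF, hF'⟩ := exists_log h1 fun p => ext_ne_zero _ (exp_ne_zero _)
  have h2 : ∀ t : ℝ, exp (F (t, -lam)) = 1 / 3 := by
    intro t
    rw [hF']
    simp only
    rw [exp_neg_lam, ext_of_Cset _ mem_C_third]
  refine ⟨fun p => F p - (F (0, -lam) + lam), hF.sub continuous_const, fun t => ⟨?_, ?_, ?_⟩⟩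
  · exact (hF.comp (continuous_const.prodMk continuous_id)).sub continuous_const
  · intro z
    rw [exp_sub, hF', exp_add, h2, exp_lam]
    norm_num
  · have h3 : F (t, -lam) + lam = F (0, -lam) + lam := by
      refine const_of_exp (X := ℝ) (u := fun t => F (t, -lam) + lam) ?_ (fun t => ?_) t 0
      · exact (hF.comp (continuous_id.prodMk continuous_const)).add continuous_const
      · rw [exp_add, h2, exp_lam]; norm_num
    linear_combination h3

theorem exists_lift (h : homeoRel Sig bdry) : ∃ F, IsLift h F := by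
  obtain ⟨F, -, hF⟩ := exists_lift_family (h := fun _ => h) (h.1.continuous.comp continuous_snd)
  exact ⟨_, hF 0⟩

/-- Lifts are injective. -/
theorem IsLift.inj {h : homeoRel Sig bdry} {F : ℂ → ℂ} (hF : IsLift h F) :
    Function.Injective F := by
  obtain ⟨K, hK⟩ := exists_lift h⁻¹
  have h1 := (hK.mul hF).unique (by rw [inv_mul_cancel]; exact IsLift.one)
  intro z w hzw
  have := congrFun h1 z
  have h2 := congrFun h1 w
  simp only [Function.comp_apply, id_eq] at this h2
  rw [← this, hzw, h2]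

theorem re_log_bound {z : ℂ} (h : Real.log 100 ≤ z.re) : exp z ∈ Cset := by
  refine Or.inr (Or.inl ?_)
  rw [norm_exp]
  have := Real.exp_le_exp.2 h
  rwa [Real.exp_log (by norm_num)] at this

theorem IsLift.add_per {h : homeoRel Sig bdry} {F : ℂ → ℂ} (hF : IsLift h F) (z : ℂ) :
    F (z + per) = F z + per := by
  obtain ⟨a, ha⟩ : ∃ a : ℝ, a = Real.log 100 := ⟨_, rfl⟩
  have h1 : F ((a : ℂ) + ((0 : ℝ) : ℂ) * I) - ((a : ℂ) + ((0 : ℝ) : ℂ) * I) =
      F ((a : ℂ) + ((2 * Real.pi : ℝ) : ℂ) * I) - ((a : ℂ) + ((2 * Real.pi : ℝ) : ℂ) * I) := by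
    refine const_of_exp (X := ℝ) (u := fun t : ℝ => F ((a : ℂ) + (t : ℂ) * I) - ((a : ℂ) + (t : ℂ) * I))
      ?_ (fun t => ?_) 0 (2 * Real.pi)
    · have h2 : Continuous fun t : ℝ => (a : ℂ) + (t : ℂ) * I := by fun_prop
      exact (hF.cont.comp h2).sub h2
    · have h2 : exp ((a : ℂ) + (t : ℂ) * I) ∈ Cset := by
        apply re_log_bound
        rw [Complex.add_re, Complex.ofReal_re, Complex.re_ofReal_mul, Complex.I_re, mul_zero,
          add_zero, ha]
      rw [exp_sub, hF.exp_eq, ext_of_Cset _ h2, div_self (exp_ne_zero _)]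
  have h3 : (fun z => F (z + per) - per) = F := by
    refine lift_unique ?_ hF.cont (fun z => ?_) ((a : ℂ) + ((0 : ℝ) : ℂ) * I) ?_
    · exact (hF.cont.comp (continuous_id.add continuous_const)).sub continuous_const
    · rw [exp_sub, exp_per, div_one, hF.exp_eq, hF.exp_eq, exp_add_per]
    · have e : (a : ℂ) + ((0 : ℝ) : ℂ) * I + per = (a : ℂ) + ((2 * Real.pi : ℝ) : ℂ) * I := by
        rw [per]; push_cast; ring
      rw [e]
      have e2 : F ((a : ℂ) + ((2 * Real.pi : ℝ) : ℂ) * I) = F ((a : ℂ) + ((0 : ℝ) : ℂ) * I) + per := by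
        have : ((a : ℂ) + ((2 * Real.pi : ℝ) : ℂ) * I) - ((a : ℂ) + ((0 : ℝ) : ℂ) * I) = per := by
          rw [per]; push_cast; ring
        linear_combination (-1 : ℂ) * h1 + this
      rw [e2]
      ring
  have : F (z + per) - per = F z := congrFun h3 z
  linear_combination this

theorem IsLift.add_int_per {h : homeoRel Sig bdry} {F : ℂ → ℂ} (hF : IsLift h F) (z : ℂ) (k : ℤ) :
    F (z + k * per) = F z + k * per := by
  induction k using Int.induction_on with
  | zero => simp
  | succ k ih =>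
    have := hF.add_per (z + k * per)
    push_cast
    rw [show z + ((k : ℂ) + 1) * per = z + k * per + per by ring, this]
    push_cast at ih
    rw [ih]
    ring
  | pred k ih =>
    have := hF.add_per (z + (-(k : ℂ) - 1) * per)
    push_cast at ih ⊢
    rw [show z + (-(k : ℂ) - 1) * per + per = z + -(k : ℂ) * per by ring, ih] at this
    linear_combination (-1 : ℂ) * this

theorem IsLift.pt {h : homeoRel Sig bdry} {F : ℂ → ℂ} (hF : IsLift h F) (j : ℤ) :
    F (pt j) = pt j := by
  rw [MF.pt, hF.add_int_per, hF.norm]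

/-- There is a ball about the points `pt j` and about `lam + j per` mapped into the holes. -/
theorem exists_radius : ∃ r : ℝ, 0 < r ∧ (∀ j : ℤ, ∀ z ∈ Metric.ball (pt j) r, exp z ∈ Cset) := by
  have h1 : ∀ᶠ z in 𝓝 (-lam), exp z ∈ Cset := by
    have h2 : Metric.ball (1 / 3 : ℂ) (1 / 10) ∈ 𝓝 (exp (-lam)) := by
      rw [exp_neg_lam]
      exact Metric.ball_mem_nhds _ (by norm_num)
    filter_upwards [continuous_exp.continuousAt h2] with z hz
    refine Or.inr (Or.inr (Or.inr ?_))
    have : exp z ∈ Metric.ball (1 / 3 : ℂ) (1 / 10) := hz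
    rw [Metric.mem_ball, dist_eq_norm] at this
    exact this.le
  obtain ⟨r, hr, h3⟩ := Metric.eventually_nhds_iff_ball.1 h1
  refine ⟨r, hr, fun j z hz => ?_⟩
  have h4 := h3 (z + (-j : ℤ) * per) (by
    rw [Metric.mem_ball, dist_eq_norm] at hz ⊢
    have e : z + ((-j : ℤ) : ℂ) * per - -lam = z - pt j := by rw [pt]; push_cast; ring
    rwa [e])
  rwa [exp_add_int_per] at h4

theorem IsLift.eq_on_ball {r : ℝ} (hr : 0 < r)
    (hr' : ∀ j : ℤ, ∀ z ∈ Metric.ball (MF.pt j) r, exp z ∈ Cset)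
    {h : homeoRel Sig bdry} {F : ℂ → ℂ} (hF : IsLift h F) {j : ℤ} {z : ℂ}
    (hz : z ∈ Metric.ball (MF.pt j) r) : F z = z := by
  have h1 : F z - z = F (MF.pt j) - MF.pt j := by
    refine const_of_exp_on (u := fun z => F z - z) (convex_ball (MF.pt j) r).isPreconnected
      (hF.cont.sub continuous_id).continuousOn (fun x hx => ?_) hz (Metric.mem_ball_self hr)
    rw [exp_sub, hF.exp_eq, ext_of_Cset _ (hr' j x hx), div_self (exp_ne_zero _)]
  rw [hF.pt, sub_self] at h1
  exact sub_eq_zero.1 h1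

/-! ### Relative logarithms -/

/-- `L` is a continuous logarithm of `(F z - pt j) / (z - pt j)`. -/
structure IsLog (j : ℤ) (F L : ℂ → ℂ) : Prop where
  cont : Continuous L
  eq : ∀ z, exp (L z) * (z - pt j) = F z - pt j

theorem IsLog.unique {j : ℤ} {F L M : ℂ → ℂ} (hL : IsLog j F L) (hM : IsLog j F M) (a b : ℂ) :
    L a - M a = L b - M b := by
  have h1 : Continuous fun z => exp (L z - M z) := continuous_exp.comp (hL.cont.sub hM.cont)
  have h2 : (fun z => exp (L z - M z)) = fun _ => 1 := by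
    refine Continuous.ext_on (dense_compl_singleton (pt j)) h1 continuous_const ?_
    intro z hz
    have hz' : z - pt j ≠ 0 := sub_ne_zero.2 hz
    simp only
    have h3 := hL.eq z
    rw [← hM.eq z] at h3
    have h4 := mul_right_cancel₀ hz' h3
    rw [exp_sub, h4, div_self (exp_ne_zero _)]
  exact const_of_exp (X := ℂ) (u := fun z => L z - M z) (hL.cont.sub hM.cont)
    (fun z => congrFun h2 z) a b

theorem IsLog.comp {j : ℤ} {F K L M : ℂ → ℂ} (hK : Continuous K) (hL : IsLog j F L)
    (hM : IsLog j K M) : IsLog j (F ∘ K) fun z => L (K z) + M z :=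
  ⟨(hL.cont.comp hK).add hM.cont, fun z => by
    rw [exp_add, mul_assoc, hM.eq z, hL.eq (K z)]; rfl⟩

theorem IsLog.id (j : ℤ) : IsLog j _root_.id fun _ => 0 :=
  ⟨continuous_const, fun z => by rw [exp_zero, one_mul]; rfl⟩

/-- Joint logarithms for families of homeomorphisms. -/
theorem exists_log_family {h : ℝ → homeoRel Sig bdry} {F : ℝ × ℂ → ℂ} (hF : Continuous F)
    (hF' : ∀ t, IsLift (h t) fun z => F (t, z)) (j : ℤ) : ∃ L : ℝ × ℂ → ℂ, Continuous L ∧
      (∀ t, IsLog j (fun z => F (t, z)) fun z => L (t, z)) ∧ ∀ t, exp (L (t, pt j)) = 1 := by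
  obtain ⟨r, hr, hr'⟩ := exists_radius
  obtain ⟨L, hL, hL1, hL2⟩ := exists_joint_log hF (a := pt j) (b := fun _ => pt j) (u := fun _ => 1)
    continuous_const continuous_const (fun _ => one_ne_zero) hr (fun t z hz => by
      have : F (t, z) = z := (hF' t).eq_on_ball hr hr' hz
      rw [this]; ring) (fun t z hz => by
      have h1 : F (t, pt j) = pt j := (hF' t).pt j
      exact (hF' t).inj (hz.trans h1.symm))
  exact ⟨L, hL, fun t => ⟨hL.comp (continuous_const.prodMk continuous_id), fun z => hL1 t z⟩, hL2⟩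

theorem exists_isLog {h : homeoRel Sig bdry} {F : ℂ → ℂ} (hF : IsLift h F) (j : ℤ) :
    ∃ L, IsLog j F L ∧ exp (L (pt j)) = 1 := by
  obtain ⟨L, -, hL, hL'⟩ := exists_log_family (h := fun _ => h) (F := fun p => F p.2)
    (hF.cont.comp continuous_snd) (fun _ => hF) j
  exact ⟨_, hL 0, hL' 0⟩

end Pool.Agent.R788.MF
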