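import Pool.Agent.R788.MF.Desc

/-!
# The two twists
-/

set_option autoImplicit false

open Topology Complex

namespace Pool.Agent.R788.MF

/-- Clamping to the unit interval. -/
noncomputable def clampf (x : ℝ) : ℝ := max 0 (min 1 x)

theorem continuous_clampf : Continuous clampf := by
  unfold clampf
  fun_prop

theorem clampf_of_nonpos {x : ℝ} (hx : x ≤ 0) : clampf x = 0 := by
  rw [clampf, min_eq_right (by linarith), max_eq_left hx]

theorem clampf_of_one_le {x : ℝ} (hx : 1 ≤ x) : clampf x = 1 := by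
  rw [clampf, min_eq_left hx, max_eq_right zero_le_one]

/-! ### The shear -/

/-- The shear of the plane along the imaginary axis. -/
noncomputable def shear (g : ℝ → ℝ) (hg : Continuous g) : ℂ ≃ₜ ℂ where
  toFun z := z + (g z.re : ℂ) * I
  invFun z := z - (g z.re : ℂ) * I
  left_inv z := by
    have h : (z + (g z.re : ℂ) * I).re = z.re := by
      rw [add_re, re_ofReal_mul, I_re, mul_zero, add_zero]
    change z + (g z.re : ℂ) * I - (g (z + (g z.re : ℂ) * I).re : ℂ) * I = z
    rw [h, add_sub_cancel_right]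
  right_inv z := by
    have h : (z - (g z.re : ℂ) * I).re = z.re := by
      rw [sub_re, re_ofReal_mul, I_re, mul_zero, sub_zero]
    change z - (g z.re : ℂ) * I + (g (z - (g z.re : ℂ) * I).re : ℂ) * I = z
    rw [h, sub_add_cancel]
  continuous_toFun := continuous_id.add
    ((continuous_ofReal.comp (hg.comp continuous_re)).mul continuous_const)
  continuous_invFun := continuous_id.sub
    ((continuous_ofReal.comp (hg.comp continuous_re)).mul continuous_const)

/-- The power `S ^ m` of the basic shear. -/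
noncomputable def Sh (m : ℤ) : ℂ ≃ₜ ℂ :=
  shear (fun x => m * (2 * Real.pi * clampf (x + 1 / 2)))
    (continuous_const.mul (continuous_const.mul
      (continuous_clampf.comp (continuous_id.add continuous_const))))

theorem Sh_apply (m : ℤ) (z : ℂ) :
    Sh m z = z + ((m * (2 * Real.pi * clampf (z.re + 1 / 2)) : ℝ) : ℂ) * I := rfl

theorem Sh_of_le (m : ℤ) {z : ℂ} (hz : z.re ≤ -1 / 2) : Sh m z = z := by
  rw [Sh_apply, clampf_of_nonpos (by linarith)]
  simp

theorem Sh_of_ge (m : ℤ) {z : ℂ} (hz : 1 / 2 ≤ z.re) : Sh m z = z + m * per := by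
  rw [Sh_apply, clampf_of_one_le (by linarith), per]
  push_cast
  ring

theorem Sh_Sh_neg (m : ℤ) (z : ℂ) : Sh (-m) (Sh m z) = z := by
  have h : (Sh m z).re = z.re := by
    rw [Sh_apply, add_re, re_ofReal_mul, I_re, mul_zero, add_zero]
  rw [Sh_apply (-m), h, Sh_apply]
  push_cast
  ring

theorem Cset_cases {z : ℂ} (hz : exp z ∈ Cset) : z.re ≤ -1 / 2 ∨ 1 / 2 ≤ z.re := by
  have h1 : ‖exp z‖ = Real.exp z.re := norm_exp z
  have e1 : (1 / 2 : ℝ) ≤ Real.exp (-1 / 2) := by
    have := Real.add_one_le_exp (-1 / 2 : ℝ)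
    linarith
  have e2 : Real.exp (1 / 2) ≤ 2.7182818286 := by
    have h2 : Real.exp (1 / 2) ≤ Real.exp 1 := Real.exp_le_exp.2 (by norm_num)
    linarith [Real.exp_one_lt_d9]
  have hlow : ‖exp z‖ ≤ 13 / 30 → z.re ≤ -1 / 2 := by
    intro h
    rw [h1] at h
    exact (Real.exp_lt_exp.1 (lt_of_lt_of_le (by linarith) e1 : Real.exp z.re < _)).le
  have hhigh : 29 / 10 ≤ ‖exp z‖ → 1 / 2 ≤ z.re := by
    intro h
    rw [h1] at h
    exact (Real.exp_lt_exp.1 (lt_of_le_of_lt e2 (by norm_num at h ⊢; linarith) :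
      Real.exp (1 / 2) < Real.exp z.re)).le
  rcases hz with h | h | h | h
  · exact Or.inl (hlow (by linarith))
  · exact Or.inr (hhigh (by linarith))
  · refine Or.inr (hhigh ?_)
    have h2 : ‖(3 : ℂ)‖ ≤ ‖exp z‖ + ‖exp z - 3‖ := by
      have := norm_sub_norm_le (3 : ℂ) (exp z)
      rw [norm_sub_rev] at this
      linarith
    have h3 : ‖(3 : ℂ)‖ = 3 := by norm_num
    rw [h3] at h2
    linarith
  · refine Or.inl (hlow ?_)
    have h2 := norm_sub_norm_le (exp z) (1 / 3 : ℂ)
    have h3 : ‖(1 / 3 : ℂ)‖ = 1 / 3 := by norm_num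
    rw [h3] at h2
    linarith

theorem Sh_fix (m : ℤ) {z : ℂ} (hz : exp z ∈ Cset) : exp (Sh m z) = exp z := by
  rcases Cset_cases hz with h | h
  · rw [Sh_of_le m h]
  · rw [Sh_of_ge m h, exp_add_int_per]

theorem per_re : per.re = 0 := by
  rw [per]
  simp

theorem good_Sh (m : ℤ) : Good (Sh m) := by
  refine ⟨fun z => ?_, fun z hz => Sh_fix m hz⟩
  rw [Sh_apply, Sh_apply, add_re, per_re, add_zero]
  ring

/-! ### The rotation -/

/-- The angle of the rotation at distance `r`. -/
noncomputable def rot (r : ℝ) : ℝ := 2 * Real.pi * clampf (3 - r)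

theorem continuous_rot : Continuous rot :=
  continuous_const.mul (continuous_clampf.comp (continuous_const.sub continuous_id))

/-- The rotations. -/
noncomputable def R (s : ℝ) (z : ℂ) : ℂ := z * exp (((s * rot ‖z‖ : ℝ) : ℂ) * I)

theorem norm_R (s : ℝ) (z : ℂ) : ‖R s z‖ = ‖z‖ := by
  rw [R, norm_mul, norm_exp_ofReal_mul_I, mul_one]

theorem R_R (s t : ℝ) (z : ℂ) : R t (R s z) = R (t + s) z := by
  have h := norm_R s z
  rw [R, h, R, R, mul_assoc, ← exp_add]
  congr 2
  push_cast
  ring

theorem R_zero (z : ℂ) : R 0 z = z := by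
  rw [R, zero_mul, ofReal_zero, zero_mul, exp_zero, mul_one]

theorem R_of_ge (s : ℝ) {z : ℂ} (hz : 3 ≤ ‖z‖) : R s z = z := by
  rw [R, rot, clampf_of_nonpos (by linarith), mul_zero, mul_zero, ofReal_zero, zero_mul, exp_zero,
    mul_one]

/-- The unit number at time `s`. -/
noncomputable def un (s : ℝ) : ℂ := exp ((s : ℂ) * per)

theorem continuous_un : Continuous un :=
  continuous_exp.comp (continuous_ofReal.mul continuous_const)

theorem un_ne (s : ℝ) : un s ≠ 0 := exp_ne_zero _

theorem un_one : un 1 = 1 := by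
  rw [un, ofReal_one, one_mul, exp_per]

theorem un_zero : un 0 = 1 := by
  rw [un, ofReal_zero, zero_mul, exp_zero]

theorem norm_un (s : ℝ) : ‖un s‖ = 1 := by
  rw [un, norm_exp, re_ofReal_mul, per_re, mul_zero, Real.exp_zero]

theorem R_of_le (s : ℝ) {z : ℂ} (hz : ‖z‖ ≤ 2) : R s z = z * un s := by
  rw [R, rot, clampf_of_one_le (by linarith), un, per]
  congr 2
  push_cast
  ring

theorem continuous_R : Continuous fun p : ℝ × ℂ => R p.1 p.2 := by
  unfold R
  refine continuous_snd.mul (continuous_exp.comp ((continuous_ofReal.comp ?_).mul continuous_const))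
  exact continuous_fst.mul (continuous_rot.comp continuous_snd.norm)

/-- The representative in the fundamental strip. -/
noncomputable def rep (z : ℂ) : ℂ := log (exp z)

theorem rep_eq {z : ℂ} (h1 : -Real.pi < z.im) (h2 : z.im ≤ Real.pi) : rep z = z :=
  log_exp h1 h2

theorem rep_add (z : ℂ) (k : ℤ) : rep (z + k * per) = rep z := by
  rw [rep, exp_add_int_per, rep]

theorem exists_rep (z : ℂ) : ∃ k : ℤ, rep z = z + k * per := log_exp_eq z

theorem rep_im (z : ℂ) : -Real.pi < (rep z).im ∧ (rep z).im ≤ Real.pi :=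
  ⟨neg_pi_lt_log_im _, log_im_le_pi _⟩

theorem rep_R (s : ℝ) (z : ℂ) : rep (R s (rep z)) = R s (rep z) := by
  rcases le_total 3 ‖rep z‖ with h | h
  · rw [R_of_ge s h]
    exact rep_eq (rep_im z).1 (rep_im z).2
  · have h1 : ‖R s (rep z)‖ ≤ 3 := by rwa [norm_R]
    have h2 := abs_im_le_norm (R s (rep z))
    have h3 := abs_le.1 (h2.trans h1)
    have h4 := Real.pi_gt_three
    exact rep_eq (by linarith) (by linarith)

/-- The rotations about the points `k * per`. -/
noncomputable def Tw (s : ℝ) (z : ℂ) : ℂ := z + (R s (rep z) - rep z)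

theorem rep_Tw (s : ℝ) (z : ℂ) : rep (Tw s z) = R s (rep z) := by
  obtain ⟨k, hk⟩ := exists_rep z
  have h : Tw s z = R s (rep z) + ((-k : ℤ) : ℂ) * per := by
    rw [Tw]
    push_cast
    linear_combination (-1 : ℂ) * hk
  rw [h, rep_add, rep_R]

theorem Tw_Tw (s t : ℝ) (z : ℂ) : Tw t (Tw s z) = Tw (t + s) z := by
  have h := rep_Tw s z
  rw [Tw, h, R_R, Tw, Tw]
  ring

theorem Tw_zero (z : ℂ) : Tw 0 z = z := by
  rw [Tw, R_zero]
  ring

theorem Tw_inj {s : ℝ} {z w : ℂ} (h : Tw s z = Tw s w) : z = w := by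
  have h1 : Tw (-s) (Tw s z) = Tw (-s) (Tw s w) := by rw [h]
  rwa [Tw_Tw, Tw_Tw, neg_add_cancel, Tw_zero, Tw_zero] at h1

theorem Tw_add (s : ℝ) (z : ℂ) (k : ℤ) : Tw s (z + k * per) = Tw s z + k * per := by
  rw [Tw, rep_add, Tw]
  ring

theorem continuous_Tw : Continuous fun p : ℝ × ℂ => Tw p.1 p.2 := by
  have key : Continuous fun p : ℝ × ℂ => R p.1 (rep p.2) - rep p.2 := by
    rw [continuous_iff_continuousAt]
    rintro ⟨s, z⟩
    -- the case of the fundamental strip
    have main : ∀ z : ℂ, -Real.pi < z.im → z.im ≤ Real.pi →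
        ContinuousAt (fun p : ℝ × ℂ => R p.1 (rep p.2) - rep p.2) (s, z) := by
      intro z h1 h2
      rcases lt_or_eq_of_le h2 with h2 | h2
      · have hev : (fun p : ℝ × ℂ => R p.1 (rep p.2) - rep p.2) =ᶠ[𝓝 (s, z)]
            fun p => R p.1 p.2 - p.2 := by
          have ho : IsOpen {p : ℝ × ℂ | -Real.pi < p.2.im ∧ p.2.im < Real.pi} :=
            (isOpen_lt continuous_const (continuous_im.comp continuous_snd)).inter
              (isOpen_lt (continuous_im.comp continuous_snd) continuous_const)
          filter_upwards [ho.mem_nhds ⟨h1, h2⟩] with p hp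
          rw [rep_eq hp.1 hp.2.le]
        exact ContinuousAt.congr (continuous_R.sub continuous_snd).continuousAt hev.symm
      · have hev : (fun p : ℝ × ℂ => R p.1 (rep p.2) - rep p.2) =ᶠ[𝓝 (s, z)] fun _ => 0 := by
          have ho : IsOpen {p : ℝ × ℂ | 3 < p.2.im ∧ p.2.im < 2 * Real.pi - 3} :=
            (isOpen_lt continuous_const (continuous_im.comp continuous_snd)).inter
              (isOpen_lt (continuous_im.comp continuous_snd) continuous_const)
          have h4 := Real.pi_gt_three
          filter_upwards [ho.mem_nhds ⟨by change 3 < z.im; rw [h2]; exact h4, by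
            change z.im < 2 * Real.pi - 3
            rw [h2]; linarith⟩] with p hp
          have h5 : 3 ≤ ‖rep p.2‖ := by
            rcases le_total p.2.im Real.pi with h6 | h6
            · rw [rep_eq (by linarith [hp.1]) h6]
              exact (hp.1.le.trans (le_abs_self _)).trans (abs_im_le_norm _)
            · rcases lt_or_eq_of_le h6 with h6 | h6
              · have h7 : rep p.2 = p.2 + ((-1 : ℤ) : ℂ) * per := by
                  have h8 := rep_add p.2 (-1)
                  rw [← h8]
                  have h9 : (p.2 + ((-1 : ℤ) : ℂ) * per).im = p.2.im - 2 * Real.pi := by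
                    rw [per]
                    simp
                    ring
                  refine rep_eq ?_ ?_
                  · rw [h9]; linarith
                  · rw [h9]; linarith [hp.2]
                rw [h7]
                refine le_trans ?_ (abs_im_le_norm _)
                have h9 : (p.2 + ((-1 : ℤ) : ℂ) * per).im = p.2.im - 2 * Real.pi := by
                  rw [per]
                  simp
                  ring
                rw [h9]
                refine le_trans ?_ (neg_le_abs _)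
                linarith [hp.2]
              · rw [rep_eq (by linarith [hp.1]) h6.ge]
                exact (hp.1.le.trans (le_abs_self _)).trans (abs_im_le_norm _)
          rw [R_of_ge _ h5, sub_self]
        exact ContinuousAt.congr continuousAt_const hev.symm
    obtain ⟨k, hk⟩ := exists_rep z
    have h1 := main (rep z) (rep_im z).1 (rep_im z).2
    rw [hk] at h1
    have h2 : (fun p : ℝ × ℂ => R p.1 (rep p.2) - rep p.2) =
        (fun p : ℝ × ℂ => R p.1 (rep p.2) - rep p.2) ∘ fun p : ℝ × ℂ => (p.1, p.2 + k * per) := by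
      funext p
      change R p.1 (rep p.2) - rep p.2 = R p.1 (rep (p.2 + k * per)) - rep (p.2 + k * per)
      rw [rep_add]
    rw [h2]
    have h3 : Continuous fun p : ℝ × ℂ => (p.1, p.2 + k * per) :=
      continuous_fst.prodMk (continuous_snd.add continuous_const)
    exact ContinuousAt.comp (f := fun p : ℝ × ℂ => (p.1, p.2 + k * per)) (x := (s, z)) h1
      h3.continuousAt
  exact continuous_snd.add key

/-- The twist. -/
noncomputable def T : ℂ ≃ₜ ℂ where
  toFun := Tw 1
  invFun := Tw (-1)
  left_inv z := by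
    rw [Tw_Tw, neg_add_cancel, Tw_zero]
  right_inv z := by
    rw [Tw_Tw, add_neg_cancel, Tw_zero]
  continuous_toFun := continuous_Tw.comp (continuous_const.prodMk continuous_id)
  continuous_invFun := continuous_Tw.comp (continuous_const.prodMk continuous_id)

theorem T_apply (z : ℂ) : T z = Tw 1 z := rfl

theorem log_three_lt : Real.log 3 < 3 / 2 := by
  rw [Real.log_lt_iff_lt_exp (by norm_num)]
  have h1 : Real.exp (3 / 2) = Real.exp 1 * Real.exp (1 / 2) := by
    rw [← Real.exp_add]; norm_num
  have h2 := Real.add_one_le_exp (1 / 2 : ℝ)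
  have h3 := Real.exp_one_gt_d9
  rw [h1]
  nlinarith

theorem log_three_pos : 0 < Real.log 3 := Real.log_pos (by norm_num)

theorem three_le_log_hundred : 3 ≤ Real.log 100 := by
  rw [Real.le_log_iff_exp_le (by norm_num)]
  have h1 : Real.exp 3 = Real.exp 1 ^ 3 := by
    rw [← Real.exp_nat_mul]; norm_num
  have h3 := Real.exp_one_lt_d9
  have h4 := Real.exp_pos 1
  rw [h1]
  have : Real.exp 1 ^ 3 ≤ 3 ^ 3 := by
    apply pow_le_pow_left₀ h4.le
    linarith
  linarith

theorem norm_log_mul_le {x : ℝ} (hx : 0 < x) {u : ℂ} (hu : ‖u‖ ≤ 3 / 10) :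
    ‖log ((x : ℂ) * (1 + u))‖ ≤ |Real.log x| + 1 / 2 := by
  have h1 : 1 + u ≠ 0 := by
    intro h
    have : ‖u‖ = 1 := by
      rw [show u = -1 by linear_combination h, norm_neg, norm_one]
    linarith
  rw [log_ofReal_mul hx h1]
  have h2 : ‖log (1 + u)‖ ≤ 1 / 2 := by
    have h3 := norm_log_one_add_le (z := u) (by linarith)
    have h4 : (1 - ‖u‖)⁻¹ ≤ 10 / 7 := by
      rw [inv_le_comm₀ (by linarith) (by norm_num)]
      linarith
    have h5 : ‖u‖ ^ 2 ≤ 9 / 100 := by
      have := norm_nonneg u
      nlinarith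
    have h6 : ‖u‖ ^ 2 * (1 - ‖u‖)⁻¹ ≤ 9 / 100 * (10 / 7) :=
      mul_le_mul h5 h4 (inv_nonneg.2 (by linarith)) (by norm_num)
    linarith
  refine (norm_add_le _ _).trans (add_le_add ?_ h2)
  rw [norm_real, Real.norm_eq_abs]

theorem rep_cases {z : ℂ} (hz : exp z ∈ Cset) : ‖rep z‖ ≤ 2 ∨ 3 ≤ ‖rep z‖ := by
  have hl := log_three_lt
  have hl' := log_three_pos
  have h100 := three_le_log_hundred
  have hre : (rep z).re = Real.log ‖exp z‖ := log_re _
  have hpos : 0 < ‖exp z‖ := norm_pos_iff.2 (exp_ne_zero z)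
  rcases hz with h | h | h | h
  · right
    refine le_trans ?_ (abs_re_le_norm _)
    rw [hre]
    refine le_trans ?_ (neg_le_abs _)
    have h1 := Real.log_le_log hpos h
    rw [one_div, Real.log_inv] at h1
    linarith
  · right
    refine le_trans ?_ (abs_re_le_norm _)
    rw [hre]
    refine le_trans ?_ (le_abs_self _)
    have h1 := Real.log_le_log (by norm_num) h
    linarith
  · left
    have e : exp z = ((3 : ℝ) : ℂ) * (1 + (exp z - 3) / 3) := by
      push_cast
      ring
    rw [rep, e]
    refine (norm_log_mul_le (by norm_num) ?_).trans ?_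
    · rw [norm_div]
      have : ‖(3 : ℂ)‖ = 3 := by norm_num
      rw [this]
      linarith
    · rw [abs_of_pos hl']
      linarith
  · left
    have e : exp z = ((1 / 3 : ℝ) : ℂ) * (1 + (exp z - 1 / 3) * 3) := by
      push_cast
      ring
    rw [rep, e]
    refine (norm_log_mul_le (by norm_num) ?_).trans ?_
    · rw [norm_mul]
      have : ‖(3 : ℂ)‖ = 3 := by norm_num
      rw [this]
      linarith
    · rw [one_div, Real.log_inv, abs_neg, abs_of_pos hl']
      linarith

theorem T_fix {z : ℂ} (hz : exp z ∈ Cset) : T z = z := by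
  rw [T_apply, Tw]
  rcases rep_cases hz with h | h
  · rw [R_of_le _ h, un_one]
    ring
  · rw [R_of_ge _ h]
    ring

theorem good_T : Good T := by
  refine ⟨fun z => ?_, fun z hz => by rw [T_fix hz]⟩
  have := Tw_add 1 z 1
  rw [Int.cast_one, one_mul] at this
  exact this

end Pool.Agent.R788.MF
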