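import Pool.Agent.R788.MF.Twist

/-!
# The values of the invariants on the conjugates of the twist
-/

set_option autoImplicit false

open Topology Complex

namespace Pool.Agent.R788.MF

theorem lam_im : lam.im = 0 := by rw [lam, ofReal_im]

theorem lam_re : lam.re = Real.log 3 := by rw [lam, ofReal_re]

theorem norm_lam : ‖lam‖ < 3 / 2 := by
  rw [lam, norm_real, Real.norm_eq_abs, abs_of_pos log_three_pos]
  exact log_three_lt

theorem lam_ne : lam ≠ 0 := by
  rw [lam]
  exact_mod_cast log_three_pos.ne'

theorem rep_lam (m : ℤ) : rep (lam + m * per) = lam := by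
  rw [rep_add]
  have := Real.pi_pos
  exact rep_eq (by rw [lam_im]; linarith) (by rw [lam_im]; linarith)

theorem rep_pt (m : ℤ) : rep (pt m) = -lam := by
  rw [pt, rep_add]
  have := Real.pi_pos
  exact rep_eq (by rw [neg_im, lam_im]; linarith) (by rw [neg_im, lam_im]; linarith)

theorem Tw_lam (s : ℝ) (m : ℤ) : Tw s (lam + m * per) = m * per + lam * un s := by
  rw [Tw, rep_lam, R_of_le s (by linarith [norm_lam])]
  ring

theorem Tw_pt (s : ℝ) (m : ℤ) : Tw s (pt m) = m * per - lam * un s := by
  rw [Tw, rep_pt, R_of_le s (by rw [norm_neg]; linarith [norm_lam]), pt]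
  ring

/-- The path of the difference, and its winding. -/
theorem log_path_const {l : ℝ → ℂ} (hl : Continuous l) {c : ℂ} {v : ℝ → ℂ} (hv : Continuous v)
    (hv1 : ∀ s, ‖v s‖ < 1) (h : ∀ s, exp (l s) = c * (1 + v s)) (hv01 : v 1 = v 0) :
    l 1 = l 0 := by
  have hne : ∀ s, 1 + v s ∈ slitPlane := fun s => mem_slitPlane_of_norm_lt_one (hv1 s)
  have h1 : l 1 - log (1 + v 1) - (l 0 - log (1 + v 0)) =
      l 0 - log (1 + v 0) - (l 0 - log (1 + v 0)) := by
    refine const_of_exp (X := ℝ) (u := fun s => l s - log (1 + v s) - (l 0 - log (1 + v 0))) ?_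
      (fun s => ?_) 1 0
    · refine (hl.sub ?_).sub continuous_const
      exact (continuous_const.add hv).clog hne
    · have e : ∀ s, exp (l s - log (1 + v s)) = c := by
        intro s
        rw [exp_sub, h, exp_log (slitPlane_ne_zero (hne s)),
          mul_div_cancel_right₀ _ (slitPlane_ne_zero (hne s))]
      have hc : c ≠ 0 := by
        rw [← e 0]
        exact exp_ne_zero _
      rw [exp_sub (l s - log (1 + v s)), e s, e 0, div_self hc]
  rw [hv01] at h1
  linear_combination h1

theorem log_path_one {l : ℝ → ℂ} (hl : Continuous l) (h : ∀ s, exp (l s) = un s) :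
    l 1 = l 0 + per := by
  have h1 : l 1 - ((1 : ℝ) : ℂ) * per = l 0 - ((0 : ℝ) : ℂ) * per := by
    refine const_of_exp (X := ℝ) (u := fun s => l s - (s : ℂ) * per) ?_ (fun s => ?_) 1 0
    · exact hl.sub (continuous_ofReal.mul continuous_const)
    · rw [exp_sub, h, un, div_self (exp_ne_zero _)]
  rw [ofReal_one, ofReal_zero, one_mul, zero_mul] at h1
  linear_combination h1

theorem norm_per : ‖per‖ = 2 * Real.pi := by
  rw [per, norm_mul, norm_I, mul_one]
  have : (2 * (Real.pi : ℂ)) = ((2 * Real.pi : ℝ) : ℂ) := by push_cast; rfl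
  rw [this, norm_real, Real.norm_eq_abs, abs_of_pos (by have := Real.pi_pos; linarith)]

/-- The relative logarithm of the twist. -/
theorem exists_log_T (j m : ℤ) : ∃ L : ℂ → ℂ, IsLog j T L ∧
    L (lam + m * per) - L (pt 0) = (if j = m then per else 0) - if j = 0 then per else 0 := by
  obtain ⟨L, hL, hL1, hL2⟩ := exists_joint_log (F := fun p => Tw p.1 p.2) continuous_Tw
    (a := pt j) (b := fun s => Tw s (pt j)) (u := un)
    (continuous_Tw.comp (continuous_id.prodMk continuous_const)) continuous_un un_ne
    (r := 1 / 2) (by norm_num) (fun s z hz => by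
      rw [Metric.mem_ball, dist_eq_norm] at hz
      have h1 : z - j * per = (z - pt j) - lam := by rw [pt]; ring
      have h2 : ‖z - j * per‖ ≤ 2 := by
        rw [h1]
        refine (norm_sub_le _ _).trans ?_
        linarith [norm_lam]
      have h3 : rep z = z - j * per := by
        have h4 := rep_add z (-j)
        have h5 : z + ((-j : ℤ) : ℂ) * per = z - j * per := by push_cast; ring
        rw [h5] at h4
        rw [← h4]
        have h6 := abs_le.1 ((abs_im_le_norm _).trans h2)
        have h7 := Real.pi_gt_three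
        exact rep_eq (by linarith) (by linarith)
      change Tw s z = Tw s (pt j) + un s * (z - pt j)
      rw [Tw_pt, Tw, h3, R_of_le s h2, pt]
      ring)
    (fun s z h => Tw_inj h)
  have hlog : IsLog j T fun z => L (1, z) := by
    refine ⟨hL.comp (continuous_const.prodMk continuous_id), fun z => ?_⟩
    have h1 := hL1 1 z
    change exp (L (1, z)) * (z - pt j) = Tw 1 z - Tw 1 (pt j) at h1
    rw [h1, ← T_apply, ← T_apply, T_fix (z := pt j) (by rw [exp_pt]; exact mem_C_third)]
  refine ⟨fun z => L (1, z), hlog, ?_⟩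
  -- time zero
  have h0 : L (0, lam + m * per) - 0 = L (0, pt 0) - 0 := by
    have h1 : IsLog j _root_.id fun z => L (0, z) := by
      refine ⟨hL.comp (continuous_const.prodMk continuous_id), fun z => ?_⟩
      have h1 := hL1 0 z
      change exp (L (0, z)) * (z - pt j) = Tw 0 z - Tw 0 (pt j) at h1
      rwa [Tw_zero, Tw_zero] at h1
    exact h1.unique (IsLog.id j) (lam + m * per) (pt 0)
  -- the moving point over `3`
  have hq : L (1, lam + m * per) - L (0, lam + m * per) = if j = m then per else 0 := by
    have h1 : ∀ s, exp (L (s, lam + m * per)) * (lam + m * per - pt j) =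
        (m - j) * per + 2 * lam * un s := by
      intro s
      have h2 := hL1 s (lam + m * per)
      change exp (L (s, lam + m * per)) * (lam + m * per - pt j) =
        Tw s (lam + m * per) - Tw s (pt j) at h2
      rw [h2, Tw_lam, Tw_pt]
      ring
    have hc : Continuous fun s : ℝ => L (s, lam + m * per) :=
      hL.comp (continuous_id.prodMk continuous_const)
    split_ifs with hjm
    · subst hjm
      have h3 := log_path_one (l := fun s => L (s, lam + j * per)) hc fun s => by
        have h4 := h1 s
        have h5 : lam + j * per - pt j = 2 * lam := by rw [pt]; ring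
        rw [h5, sub_self, zero_mul, zero_add, mul_comm] at h4
        exact mul_left_cancel₀ (mul_ne_zero two_ne_zero lam_ne) h4
      change L (1, lam + j * per) = L (0, lam + j * per) + per at h3
      linear_combination h3
    · have hd : ((m - j : ℤ) : ℂ) * per ≠ 0 := by
        refine mul_ne_zero ?_ per_ne
        exact_mod_cast sub_ne_zero.2 (Ne.symm hjm)
      have hn : 2 * Real.pi ≤ ‖((m - j : ℤ) : ℂ) * per‖ := by
        rw [norm_mul, norm_per, norm_intCast]
        have h6 : (1 : ℝ) ≤ |((m - j : ℤ) : ℝ)| := by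
          have : (1 : ℤ) ≤ |m - j| := Int.one_le_abs (sub_ne_zero.2 (Ne.symm hjm))
          exact_mod_cast this
        have := Real.pi_pos
        nlinarith
      have hpi := Real.pi_gt_three
      have hlam := norm_lam
      have hq0 : lam + m * per - pt j ≠ 0 := by
        intro h
        have h7 : exp (lam + m * per) = exp (pt j) := by rw [sub_eq_zero.1 h]
        rw [exp_add_int_per, exp_lam, exp_pt] at h7
        norm_num at h7
      have h3 := log_path_const (l := fun s => L (s, lam + m * per)) hc
        (c := ((m - j : ℤ) : ℂ) * per / (lam + m * per - pt j))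
        (v := fun s => 2 * lam * un s / (((m - j : ℤ) : ℂ) * per))
        ((continuous_const.mul continuous_un).div_const _) (fun s => by
          rw [norm_div, norm_mul, norm_mul, norm_un, mul_one, div_lt_one (by linarith)]
          have : ‖(2 : ℂ)‖ = 2 := by norm_num
          rw [this]
          linarith) (fun s => by
          rw [div_mul_eq_mul_div, eq_div_iff hq0, h1 s, mul_add, mul_one, mul_div_cancel₀ _ hd]
          push_cast
          ring) (by simp only [un_one, un_zero])
      change L (1, lam + m * per) = L (0, lam + m * per) at h3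
      rw [h3, sub_self]
  -- the zeroth point over `1/3`
  have hp : L (1, pt 0) - L (0, pt 0) = if j = 0 then per else 0 := by
    have hc : Continuous fun s : ℝ => L (s, pt 0) := hL.comp (continuous_id.prodMk continuous_const)
    split_ifs with hj
    · subst hj
      have h3 := log_path_one (l := fun s => L (s, pt 0)) hc hL2
      change L (1, pt 0) = L (0, pt 0) + per at h3
      linear_combination h3
    · refine sub_eq_zero.2 (const_of_exp (X := ℝ) (u := fun s => L (s, pt 0)) hc (fun s => ?_) 1 0)
      have h2 := hL1 s (pt 0)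
      change exp (L (s, pt 0)) * (pt 0 - pt j) = Tw s (pt 0) - Tw s (pt j) at h2
      have h5 : Tw s (pt 0) - Tw s (pt j) = 1 * (pt 0 - pt j) := by
        rw [Tw_pt, Tw_pt, pt, pt]
        ring
      rw [h5] at h2
      refine mul_right_cancel₀ ?_ h2
      intro h6
      exact hj (pt_inj (sub_eq_zero.1 h6)).symm
  linear_combination hq - hp + h0

/-- The conjugates of the twist. -/
noncomputable def Gm (m : ℤ) : ℂ ≃ₜ ℂ := ((Sh m).trans T).trans (Sh (-m))

theorem Gm_apply (m : ℤ) (z : ℂ) : Gm m z = Sh (-m) (T (Sh m z)) := rfl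

theorem Gm_fix (m : ℤ) {z : ℂ} (hz : exp z ∈ Cset) : Gm m z = z := by
  rw [Gm_apply, T_fix (by rwa [Sh_fix m hz]), Sh_Sh_neg]

theorem good_Gm (m : ℤ) : Good (Gm m) := by
  refine ⟨fun z => ?_, fun z hz => by rw [Gm_fix m hz]⟩
  rw [Gm_apply, Gm_apply, (good_Sh m).per, good_T.per, (good_Sh (-m)).per]

theorem neg_lam_fix {F : ℂ ≃ₜ ℂ} (h : ∀ z, exp z ∈ Cset → F z = z) : F (-lam) = -lam :=
  h _ (by rw [exp_neg_lam]; exact mem_C_third)

/-- The elements of the stabiliser. -/
noncomputable def rho (m : ℤ) : homeoRel Sig bdry := desc (Gm m) (good_Gm m)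

theorem isLift_rho (m : ℤ) : IsLift (rho m) (Gm m) :=
  isLift_desc (good_Gm m) (neg_lam_fix fun _ => Gm_fix m)

theorem rho_mem (m : ℤ) : rho m ∈ stab angle marks marks_subset :=
  mem_stab (isLift_rho m) fun _ => Gm_fix m

theorem lam_re_ge : 1 / 2 ≤ lam.re := by
  rcases Cset_cases (z := lam) (by rw [exp_lam]; exact mem_C_three) with h | h
  · have := log_three_pos
    rw [lam_re] at h
    linarith
  · exact h

theorem pt_zero_re_le : (pt 0).re ≤ -1 / 2 := by
  rw [pt_zero, neg_re]
  have := lam_re_ge
  linarith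

theorem cval_rho (j m : ℤ) :
    cval j (rho m) = (if j = m then per else 0) - if j = 0 then per else 0 := by
  have hS : ∀ m : ℤ, ∃ L, IsLog j (Sh m) L := by
    intro m
    obtain ⟨L, hL, -⟩ := exists_isLog (isLift_desc (good_Sh m) (Sh_of_le m (by
      rw [← pt_zero]; exact pt_zero_re_le))) j
    exact ⟨L, hL⟩
  obtain ⟨A, hA⟩ := hS m
  obtain ⟨B, hB⟩ := hS (-m)
  obtain ⟨L, hL, hLv⟩ := exists_log_T j m
  have h0 : IsLog j (T ∘ Sh m) fun z => L (Sh m z) + A z := IsLog.comp (Sh m).continuous hL hA
  have h1 : IsLog j (Gm m) fun z => B ((T ∘ Sh m) z) + (L (Sh m z) + A z) :=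
    IsLog.comp (K := T ∘ Sh m) (T.continuous.comp (Sh m).continuous) hB h0
  rw [cval_eq (isLift_rho m) h1]
  have h2 : IsLog j _root_.id fun z => B (Sh m z) + A z := by
    have := IsLog.comp (Sh m).continuous hB hA
    have e : (Sh (-m) ∘ Sh m : ℂ → ℂ) = _root_.id := by
      funext z
      exact Sh_Sh_neg m z
    rwa [e] at this
  have h3 := h2.unique (IsLog.id j) lam (pt 0)
  have e1 : Sh m lam = lam + m * per := Sh_of_ge m lam_re_ge
  have e2 : Sh m (pt 0) = pt 0 := Sh_of_le m pt_zero_re_le
  have e3 : T (lam + m * per) = lam + m * per :=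
    T_fix (by rw [exp_add_int_per, exp_lam]; exact mem_C_three)
  have e4 : T (pt 0) = pt 0 := T_fix (by rw [exp_pt]; exact mem_C_third)
  change B (T (Sh m lam)) + (L (Sh m lam) + A lam) -
    (B (T (Sh m (pt 0))) + (L (Sh m (pt 0)) + A (pt 0))) = _
  rw [e1, e2] at h3
  rw [e1, e2, e3, e4]
  linear_combination hLv + h3

end Pool.Agent.R788.MF
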